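import Pool.Agent.Helper47.PB.Main

/-!
# Quasi-inverses on projective bundles
-/

set_option linter.unusedSectionVars false

namespace Pool.Agent.Helper47.PB

open Pool.Agent.Helper29.CPB

universe u v

variable {F : Type u} [Field F] [CharZero F] {Z T : Variety.{u, v} F} {c : ℕ}
  (B : ProjBundle Z T c)

namespace ProjBundle

lemma coef_self {i : ℕ} (hi : i < c) (a : Z.H) : B.coef i (B.inc i a) = a := by
  rw [B.coef_inc i hi i hi, if_pos rfl]

lemma coef_ne {i j : ℕ} (hi : i < c) (hj : j < c) (h : i ≠ j) (a : Z.H) :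
    B.coef i (B.inc j a) = 0 := by
  rw [B.coef_inc i hi j hj, if_neg h]

lemma inc_inj {i : ℕ} (hi : i < c) {a : Z.H} (h : B.inc i a = 0) : a = 0 := by
  rw [← B.coef_self hi a, h, map_zero]

/-- the coefficients of homogeneous classes -/
lemma coef_homog {i : ℕ} (hi : i < c) {j : ℤ} {b : T.H} (hb : T.π j b = b) :
    Z.π (j - 2 * i) (B.coef i b) = B.coef i b := by
  have h1 : ∀ k : ℤ, T.π k b = ∑ l ∈ Finset.range c, B.inc l (Z.π (k - 2 * l) (B.coef l b)) := by
    intro k
    conv_lhs => rw [← B.sum_inc b, map_sum]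
    refine Finset.sum_congr rfl fun l hl => ?_
    have hl' := Finset.mem_range.mp hl
    -- decompose the coefficient into homogeneous parts
    have h2 : B.coef l b = ∑ p ∈ Finset.Icc (0 : ℤ) (2 * Z.dim), Z.π p (B.coef l b) := by
      rw [← LinearMap.sum_apply, Z.π_sum]; rfl
    have h3 : ∀ p : ℤ, T.π k (B.inc l (Z.π p (B.coef l b))) =
        if p = k - 2 * l then B.inc l (Z.π p (B.coef l b)) else 0 := by
      intro p
      have h4 := B.deg l p (Z.π p (B.coef l b)) hl' (Z.π_apply_idem _ _)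
      split_ifs with hp
      · rw [show k = p + 2 * l by omega]; exact h4
      · exact T.π_apply_ne (by omega) h4
    conv_lhs => rw [h2, map_sum, map_sum, Finset.sum_congr rfl fun p _ => h3 p]
    rw [Finset.sum_ite_eq']
    split_ifs with hk
    · rfl
    · rw [Z.π_out (k - 2 * l) (by rw [Finset.mem_Icc, not_and_or] at hk; omega),
        LinearMap.zero_apply, map_zero]
  have h5 := congrArg (B.coef i) (h1 j)
  rw [hb, map_sum, Finset.sum_eq_single i] at h5
  · rw [B.coef_self hi] at h5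
    exact h5.symm
  · intro l hl hli
    exact B.coef_ne hi (Finset.mem_range.mp hl) (Ne.symm hli) _
  · intro h
    exact absurd (Finset.mem_range.mpr hi) h

lemma alg_of {i j : ℕ} (hi : i < c) (hj : j < c) {r s : ℤ} {f : Module.End F Z.H}
    (hf : f ∈ Z.corr r) (hs : s = r + i - j) : (B.inc i ∘ₗ f ∘ₗ B.coef j : Module.End F T.H) ∈
      T.corr s := by
  subst hs
  exact B.alg i j r f hi hj hf

lemma alg_of' {i j : ℕ} (hi : i < c) (hj : j < c) {r s : ℤ} {f : Module.End F T.H}
    (hf : f ∈ T.corr r) (hs : s = r + j - i) : (B.coef i ∘ₗ f ∘ₗ B.inc j : Module.End F Z.H) ∈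
      Z.corr s := by
  subst hs
  exact B.alg' i j r f hi hj hf

include B in
/-- `C⁺(Z)` implies `C⁺(T)` -/
theorem cplus_total (h : Z.CPlus) : T.CPlus := by
  have key : (∑ i ∈ (Finset.Icc (0 : ℤ) (2 * T.dim)).filter Even, T.π i) =
      ∑ i ∈ Finset.range c, (B.inc i ∘ₗ (∑ i ∈ (Finset.Icc (0 : ℤ) (2 * Z.dim)).filter Even,
        Z.π i) ∘ₗ B.coef i : Module.End F T.H) := by
    apply T.ext_homog
    intro j b hb
    rw [T.evenPart_apply hb, LinearMap.sum_apply]
    have h1 : ∀ i ∈ Finset.range c, (B.inc i ∘ₗ (∑ i ∈ (Finset.Icc (0 : ℤ) (2 * Z.dim)).filter Even,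
        Z.π i) ∘ₗ B.coef i : Module.End F T.H) b = if Even j then B.inc i (B.coef i b) else 0 := by
      intro i hi
      rw [LinearMap.comp_apply, LinearMap.comp_apply,
        Z.evenPart_apply (B.coef_homog (Finset.mem_range.mp hi) hb)]
      have h2 : Even (j - 2 * (i : ℤ)) ↔ Even j := by
        rw [Int.even_sub]; simp
      by_cases he : Even j
      · rw [if_pos he, if_pos (h2.mpr he)]
      · rw [if_neg he, if_neg (fun h => he (h2.mp h)), map_zero]
    rw [Finset.sum_congr rfl h1]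
    split_ifs
    · exact (B.sum_inc b).symm
    · simp
  show _ ∈ T.corr 0
  rw [key]
  exact T.corr_sum _ _ fun i hi =>
    B.alg_of (Finset.mem_range.mp hi) (Finset.mem_range.mp hi) h (by ring)

/-- `h b` in terms of the coefficients of `b` -/
lemma coef_zero_L (b : T.H) : B.coef 0 (T.L b) = - B.chern c (B.coef (c - 1) b) := by
  have hc := B.pos
  have h1 : T.L b = ∑ i ∈ Finset.range c, T.L (B.inc i (B.coef i b)) := by
    conv_lhs => rw [← B.sum_inc b, map_sum]
  rw [h1, map_sum, Finset.sum_eq_single (c - 1)]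
  · rw [B.mul_last, map_neg, map_sum, Finset.sum_eq_single 0]
    · rw [B.coef_self (by omega), Nat.sub_zero]
    · intro l hl hl0
      exact B.coef_ne (by omega) (Finset.mem_range.mp hl) (Ne.symm hl0) _
    · intro h
      exact absurd (Finset.mem_range.mpr (by omega)) h
  · intro i hi hic
    have hi' := Finset.mem_range.mp hi
    rw [B.mul i _ (by omega)]
    exact B.coef_ne (by omega) (by omega) (by omega) _
  · intro h
    exact absurd (Finset.mem_range.mpr (by omega)) h

/-- `a ↦ (h^(c-1) + c_1 h^(c-2) + … + c_(c-1)) a` -/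
noncomputable def quo : Z.H →ₗ[F] T.H :=
  ∑ i ∈ Finset.range c, B.inc i ∘ₗ B.chern (c - 1 - i)

lemma L_quo (a : Z.H) : T.L (B.quo a) = - B.inc 0 (B.chern c a) := by
  have hc := B.pos
  obtain ⟨n, rfl⟩ : ∃ n, c = n + 1 := ⟨c - 1, by omega⟩
  have h0 : B.quo a = ∑ i ∈ Finset.range n, B.inc i (B.chern (n - i) a) + B.inc n a := by
    unfold quo
    rw [LinearMap.sum_apply, Finset.sum_range_succ]
    simp only [Nat.add_sub_cancel, Nat.sub_self, B.chern_zero, LinearMap.comp_apply,
      Module.End.one_apply]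
  have h1 : ∀ i ∈ Finset.range n, T.L (B.inc i (B.chern (n - i) a)) =
      B.inc (i + 1) (B.chern (n - i) a) := fun i hi =>
    B.mul i _ (by have := Finset.mem_range.mp hi; omega)
  have h2 := B.mul_last a
  rw [Nat.add_sub_cancel, Finset.sum_range_succ'] at h2
  rw [h0, map_add, map_sum, Finset.sum_congr rfl h1, h2, neg_add, ← add_assoc]
  have h3 : ∀ i ∈ Finset.range n, B.inc (i + 1) (B.chern (n + 1 - (i + 1)) a) =
      B.inc (i + 1) (B.chern (n - i) a) := fun i _ => by
    rw [show n + 1 - (i + 1) = n - i by omega]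
  rw [Finset.sum_congr rfl h3, add_neg_cancel, zero_add, Nat.sub_zero]

/-- division by `h` -/
noncomputable def div : Module.End F T.H :=
  ∑ i ∈ Finset.range (c - 1), B.inc i ∘ₗ B.coef (i + 1)

lemma L_div (b : T.H) : T.L (B.div b) = b - B.inc 0 (B.coef 0 b) := by
  have hc := B.pos
  obtain ⟨n, rfl⟩ : ∃ n, c = n + 1 := ⟨c - 1, by omega⟩
  unfold div
  rw [LinearMap.sum_apply, map_sum, Nat.add_sub_cancel]
  have h1 : ∀ i ∈ Finset.range n, T.L ((B.inc i ∘ₗ B.coef (i + 1) : Module.End F T.H) b) =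
      B.inc (i + 1) (B.coef (i + 1) b) := fun i hi =>
    B.mul i _ (by have := Finset.mem_range.mp hi; omega)
  have h2 := B.sum_inc b
  rw [Finset.sum_range_succ'] at h2
  rw [Finset.sum_congr rfl h1, eq_sub_iff_add_eq]
  exact h2

lemma div_alg : B.div ∈ T.corr (-1) := by
  unfold div
  refine T.corr_sum _ _ fun i hi => ?_
  have hi' := Finset.mem_range.mp hi
  have := B.alg_of (i := i) (j := i + 1) (by omega) (by omega) (s := -1) Z.corr_one
    (by push_cast; ring)
  rwa [show (B.inc i ∘ₗ (1 : Module.End F Z.H) ∘ₗ B.coef (i + 1) : Module.End F T.H) =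
    B.inc i ∘ₗ B.coef (i + 1) from rfl] at this

/-- A quasi-inverse of `c_c` on `Z` gives a quasi-inverse of `L` on `T`. -/
theorem quasiInverse_total {n : ℕ} (h : QuasiInverse Z (B.chern c) c n) :
    QuasiInverse T (T.L ^ 1) 1 n := by
  have hc := B.pos
  obtain ⟨θ, hθ, hq⟩ := h
  refine ⟨B.div - B.quo ∘ₗ θ ∘ₗ B.coef 0, (T.corr (-1)).sub_mem B.div_alg ?_, ?_⟩
  · have e1 : (B.quo ∘ₗ θ ∘ₗ B.coef 0 : Module.End F T.H) = ∑ i ∈ Finset.range c,
        (B.inc i ∘ₗ (B.chern (c - 1 - i) * θ) ∘ₗ B.coef 0 : Module.End F T.H) := by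
      ext b
      unfold quo
      rw [LinearMap.comp_apply, LinearMap.sum_apply, LinearMap.sum_apply]
      rfl
    rw [e1]
    refine T.corr_sum _ _ fun i hi => ?_
    have hi' := Finset.mem_range.mp hi
    have h1 : B.chern (c - 1 - i) * θ ∈ Z.corr (-1 - i) := by
      refine Z.corr_mul' ?_ (B.chern_alg (c - 1 - i)) hθ
      have : ((c - 1 - i : ℕ) : ℤ) = c - 1 - i := by omega
      rw [this]; ring
    exact B.alg_of hi' (by omega) h1 (by push_cast; ring)
  · intro j b hj hb
    rw [pow_one]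
    have hb' : Z.π (j - 2 * ((c - 1 : ℕ) : ℤ)) (B.coef (c - 1) b) = B.coef (c - 1) b :=
      B.coef_homog (by omega) hb
    have hev : Even (j - 2 * ((c - 1 : ℕ) : ℤ) + n) := by
      rw [show j - 2 * ((c - 1 : ℕ) : ℤ) + n = (j + n) - 2 * ((c - 1 : ℕ) : ℤ) by ring]
      exact hj.sub (even_two_mul _)
    have h1 := hq _ _ hev hb'
    rw [LinearMap.sub_apply, map_sub, L_div, LinearMap.comp_apply, LinearMap.comp_apply, L_quo,
      B.coef_zero_L, map_neg, map_neg, map_neg, h1]
    simp

/-- A quasi-inverse of `L` on `T` gives a quasi-inverse of `c_c` on `Z`. -/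
theorem quasiInverse_base {n : ℕ} (h : QuasiInverse T (T.L ^ 1) 1 n) :
    QuasiInverse Z (B.chern c) c n := by
  have hc := B.pos
  obtain ⟨γ, hγ, h⟩ := h
  rw [pow_one] at h
  refine ⟨-(B.coef (c - 1) ∘ₗ γ ∘ₗ B.inc 0), ?_, ?_⟩
  · have h1 := B.alg_of' (i := c - 1) (j := 0) (by omega) (by omega) (s := -(c : ℤ))
      (show γ ∈ T.corr (-(1 : ℕ)) from hγ) (by push_cast [Nat.cast_sub hc]; ring)
    exact (Z.corr (-c)).neg_mem h1
  · intro j x hj hx
    have hcast : ((c - 1 : ℕ) : ℤ) = c - 1 := by omega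
    have hquo : T.π (j + 2 * ((c : ℤ) - 1)) (B.quo x) = B.quo x := by
      unfold quo
      rw [LinearMap.sum_apply, map_sum]
      refine Finset.sum_congr rfl fun i hi => ?_
      have hi' := Finset.mem_range.mp hi
      have h2 : Z.π (j + 2 * ((c - 1 - i : ℕ) : ℤ)) (B.chern (c - 1 - i) x) =
          B.chern (c - 1 - i) x := Z.corr_homog (B.chern_alg _) rfl hx
      have h3 := B.deg i _ _ hi' h2
      rw [show j + 2 * ((c - 1 - i : ℕ) : ℤ) + 2 * (i : ℤ) = j + 2 * ((c : ℤ) - 1) by omega] at h3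
      exact h3
    have hev : Even (j + 2 * ((c : ℤ) - 1) + n) := by
      rw [show j + 2 * ((c : ℤ) - 1) + n = (j + n) + 2 * ((c : ℤ) - 1) by ring]
      exact hj.add (even_two_mul _)
    have h4 := congrArg (B.coef 0) (h _ _ hev hquo)
    rw [B.coef_zero_L, L_quo, map_neg, map_neg, map_neg, map_neg, B.coef_self (by omega),
      neg_neg] at h4
    rw [LinearMap.neg_apply, map_neg, LinearMap.comp_apply, LinearMap.comp_apply]
    rw [h4]
    simp

/-- coefficients of `h b` -/
lemma coef_succ_L {i : ℕ} (hi : i + 1 < c) (b : T.H) :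
    B.coef (i + 1) (T.L b) = B.coef i b - B.chern (c - (i + 1)) (B.coef (c - 1) b) := by
  have hc := B.pos
  have h1 : T.L b = ∑ l ∈ Finset.range c, T.L (B.inc l (B.coef l b)) := by
    conv_lhs => rw [← B.sum_inc b, map_sum]
  obtain ⟨n, rfl⟩ : ∃ n, c = n + 1 := ⟨c - 1, by omega⟩
  rw [h1, Finset.sum_range_succ, map_add, map_sum, Finset.sum_eq_single i]
  · have h2 := B.mul_last (B.coef n b)
    rw [Nat.add_sub_cancel] at h2
    rw [h2, B.mul i _ hi, B.coef_self hi, map_neg, map_sum, Finset.sum_eq_single (i + 1)]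
    · rw [B.coef_self hi, Nat.add_sub_cancel]
      abel
    · intro l hl hli
      exact B.coef_ne hi (Finset.mem_range.mp hl) (Ne.symm hli) _
    · intro h
      exact absurd (Finset.mem_range.mpr hi) h
  · intro l hl hli
    have hl' := Finset.mem_range.mp hl
    rw [B.mul l _ (by omega)]
    exact B.coef_ne hi (by omega) (by omega) _
  · intro h
    exact absurd (Finset.mem_range.mpr (by omega)) h

lemma Lpow_inc (s : ℕ) : ∀ (i : ℕ) (a : Z.H), i + s < c → (T.L ^ s) (B.inc i a) = B.inc (i + s) a := by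
  induction s with
  | zero => intro i a _; rfl
  | succ s ih =>
    intro i a hi
    rw [pow_succ, Module.End.mul_apply, B.mul i a (by omega), ih (i + 1) a (by omega),
      show i + 1 + s = i + (s + 1) by omega]

include B in
/-- The powers `h ^ s` have an algebraic quasi-inverse on a projective bundle of large rank. -/
theorem quasiInverse_rank {s : ℕ} (hs : Z.dim + s ≤ c + 1) {n : ℕ} (hn : n + s = T.dim + 1) :
    QuasiInverse T (T.L ^ s) s n := by
  have hc := B.pos
  have hdim := B.dim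
  rcases lt_or_ge c s with hcs | hcs
  · -- `dim Z = 0`, `s = c + 1`
    refine ⟨0, T.cycles.zero _, fun j b hj hb => ?_⟩
    rw [LinearMap.zero_apply, map_zero]
    have h1 : T.π (j + 2 * s) ((T.L ^ s) b) = (T.L ^ s) b := T.corr_homog (T.Lpow_corr s) rfl hb
    rcases lt_or_ge j 0 with h0 | h0
    · rw [T.homog_zero (Or.inl h0) hb, map_zero]
    · exact (T.homog_zero (Or.inr (by omega)) h1).symm
  -- the coefficients of `h ^ t b`, `t ≤ s`, below `t` vanish
  have key : ∀ (j : ℤ) (b : T.H), Even (j + n) → T.π j b = b → ∀ t ≤ s, ∀ i < t,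
      B.coef i ((T.L ^ t) b) = 0 := by
    intro j b hj hb t
    induction t with
    | zero => intro _ i hi; omega
    | succ t ih =>
      intro ht i hi
      have hLb : T.π (j + 2 * t) ((T.L ^ t) b) = (T.L ^ t) b :=
        T.corr_homog (T.Lpow_corr t) rfl hb
      have hu : Z.π (j + 2 * t - 2 * ((c - 1 : ℕ) : ℤ)) (B.coef (c - 1) ((T.L ^ t) b)) =
          B.coef (c - 1) ((T.L ^ t) b) := B.coef_homog (by omega) hLb
      have hcast : ((c - 1 : ℕ) : ℤ) = c - 1 := by omega
      have hz : B.chern (c - i) (B.coef (c - 1) ((T.L ^ t) b)) = 0 := by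
        have h2 : Z.π (j + 2 * t - 2 * ((c - 1 : ℕ) : ℤ) + 2 * ((c - i : ℕ) : ℤ))
            (B.chern (c - i) (B.coef (c - 1) ((T.L ^ t) b))) =
            B.chern (c - i) (B.coef (c - 1) ((T.L ^ t) b)) :=
          Z.corr_homog (B.chern_alg _) rfl hu
        rcases lt_or_ge (j + 2 * t - 2 * ((c - 1 : ℕ) : ℤ)) 0 with h0 | h0
        · rw [Z.homog_zero (Or.inl h0) hu, map_zero]
        · apply Z.homog_zero (Or.inr _) h2
          obtain ⟨p, hp⟩ := hj
          omega
      rw [pow_succ', Module.End.mul_apply]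
      rcases Nat.eq_zero_or_pos i with rfl | hi0
      · rw [B.coef_zero_L, Nat.sub_zero] at *
        rw [hz, neg_zero]
      · obtain ⟨l, rfl⟩ : ∃ l, i = l + 1 := ⟨i - 1, by omega⟩
        rw [B.coef_succ_L (by omega), hz, sub_zero]
        exact ih (by omega) l (by omega)
  refine ⟨∑ i ∈ Finset.range (c - s), B.inc i ∘ₗ B.coef (i + s), ?_, ?_⟩
  · refine T.corr_sum _ _ fun i hi => ?_
    have hi' := Finset.mem_range.mp hi
    have := B.alg_of (i := i) (j := i + s) (by omega) (by omega) (s := -(s : ℤ)) Z.corr_one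
      (by push_cast; ring)
    rwa [show (B.inc i ∘ₗ (1 : Module.End F Z.H) ∘ₗ B.coef (i + s) : Module.End F T.H) =
      B.inc i ∘ₗ B.coef (i + s) from rfl] at this
  · intro j b hj hb
    rw [LinearMap.sum_apply, map_sum]
    have h1 : ∀ i ∈ Finset.range (c - s), (T.L ^ s) ((B.inc i ∘ₗ B.coef (i + s) :
        Module.End F T.H) ((T.L ^ s) b)) = B.inc (i + s) (B.coef (i + s) ((T.L ^ s) b)) :=
      fun i hi => B.Lpow_inc s i _ (by have := Finset.mem_range.mp hi; omega)
    rw [Finset.sum_congr rfl h1]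
    have h2 := B.sum_inc ((T.L ^ s) b)
    obtain ⟨k, hk⟩ : ∃ k, c = s + k := ⟨c - s, by omega⟩
    have h3 : ∑ i ∈ Finset.range c, B.inc i (B.coef i ((T.L ^ s) b)) =
        ∑ i ∈ Finset.range k, B.inc (i + s) (B.coef (i + s) ((T.L ^ s) b)) := by
      have h4 : ∀ f : ℕ → T.H, ∑ i ∈ Finset.range c, f i =
          ∑ i ∈ Finset.range s, f i + ∑ i ∈ Finset.range k, f (s + i) := fun f => by
        conv_lhs => rw [hk]
        exact Finset.sum_range_add f s k
      rw [h4, Finset.sum_eq_zero, zero_add]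
      · exact Finset.sum_congr rfl fun i _ => by rw [Nat.add_comm s i]
      · intro i hi
        rw [key j b hj hb s le_rfl i (Finset.mem_range.mp hi), map_zero]
    rw [show c - s = k by omega, ← h3]
    exact h2

end ProjBundle

end Pool.Agent.Helper47.PB
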