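import Pool.Agent.Helper47.PB.Final

/-!
# Two remarks

`C⁺` passes to direct summands and Tate twists (used for Cayley's trick), and the theorem of Bloch and
Gieseker for products with projective spaces.
-/

set_option linter.unusedSectionVars false

namespace Pool.Agent.Helper47.PB

open Pool.Agent.Helper29.CPB

universe u v

section

variable {F : Type u} [Field F]

/-- The motive of `S`, twisted by `-t`, is a direct summand of the motive of `D`. Examples: `S = D`
and `t = 0`; the intersection `S` of `t + 1` members of a linear system on `T`, and the divisor `D`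
of `T × P^t` with the equation `Σ g_i f_i = 0`, where the `f_i = 0` are the equations of `S` and the
`g_i` are the coordinates of `P^t` (Cayley's trick). -/
structure TateSummand (D S : Variety.{u, v} F) (t : ℕ) where
  into : S.H →ₗ[F] D.H
  proj : D.H →ₗ[F] S.H
  deg : ∀ i x, into (S.π i x) = D.π (i + 2 * t) (into x)
  proj_into : ∀ x, proj (into x) = x
  alg : ∀ f, D.alg 0 f → ∃ g, S.alg 0 g ∧ ∀ x, g x = proj (f (into x))

/-- `T = Z × P^(c-1)`, with the polarisation `h = L + g`, `L` the polarisation of `Z` and `g` a class
of `P^(c-1)`: here `(h - L)^c = 0`, so `c_c = (-L)^c`. -/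
def ProjBundle.IsProduct {Z T : Variety.{u, v} F} {c : ℕ} (B : ProjBundle Z T c) : Prop :=
  B.chern c = (-Z.L) ^ c

end

variable {F : Type u} [Field F] [CharZero F] {Z T S : Variety.{u, v} F} {c : ℕ}

/-- products satisfy the condition of Bloch and Gieseker, by the hard Lefschetz theorem -/
lemma blochGieseker_of_product (B : ProjBundle Z T c) (hB : B.IsProduct) : B.BlochGieseker := by
  intro i hi x hx h
  have hch : B.chern c = (-Z.L) ^ c := hB
  have h1 : (Z.L ^ (Z.dim - i)) x = 0 := by
    rw [hch, neg_pow, Module.End.mul_apply, ← Module.End.mul_apply (Z.L ^ c), ← pow_add,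
      show c + (Z.dim - i - c) = Z.dim - i by omega] at h
    rcases Nat.even_or_odd c with he | ho
    · rwa [he.neg_one_pow] at h
    · rw [ho.neg_one_pow] at h
      simpa using h
  exact Z.hard_inj i (by omega) x hx h1

/-- `C⁺` passes to direct summands and their Tate twists -/
theorem cplus_summand {D S : Variety.{u, v} F} {t : ℕ} (P : TateSummand D S t) (h : D.CPlus) :
    S.CPlus := by
  obtain ⟨g, hg, hgx⟩ := P.alg _ (par_alg h 0)
  apply cplus_of_par (n := 0)
  have key : par S 0 = g := by
    apply S.ext_homog
    intro j x hx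
    have hx' : D.π (j + 2 * t) (P.into x) = P.into x := by rw [← P.deg, hx]
    rw [hgx, par_apply 0 hx, par_apply 0 hx']
    have he : Even (j + 2 * (t : ℤ) + ((0 : ℕ) : ℤ)) ↔ Even (j + ((0 : ℕ) : ℤ)) := by
      rw [add_right_comm, Int.even_add, iff_true_right (even_two_mul _)]
    by_cases h0 : Even (j + ((0 : ℕ) : ℤ))
    · rw [if_pos h0, if_pos (he.mpr h0), P.proj_into]
    · rw [if_neg h0, if_neg (fun h => h0 (he.mp h)), map_zero]
  rw [key]
  exact hg

end Pool.Agent.Helper47.PB
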