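import Pool.Agent.Helper47.PB.Inverse

/-!
# Quasi-inverses of operators of large degree
-/

set_option linter.unusedSectionVars false

namespace Pool.Agent.Helper47.PB

open Pool.Agent.Helper29.CPB

universe u v

variable {F : Type u} [Field F] [CharZero F] (X : Variety.{u, v} F)

/-- The Künneth projectors in the degrees in which `B` is known. -/
lemma proj_low (hC : X.CPlus) {r : ℕ} (hr : r ≤ X.dim)
    (hL : ∀ i ≤ r, Even (i + r) → LefschetzIn X i) :
    ∀ i ≤ r, Even (i + r) → X.π i ∈ X.corr 0 ∧ X.π (2 * X.dim - i) ∈ X.corr 0 := by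
  intro i
  induction i using Nat.strong_induction_on with
  | _ i ih =>
    intro hi hev
    obtain ⟨κ, hκ, hκL⟩ := hL i hi hev (hi.trans hr)
    have hκ' : κ ∈ X.corr (i - X.dim) := hκ
    have hcast : ((X.dim - i : ℕ) : ℤ) = X.dim - i := by omega
    -- the projectors already constructed
    set N : Module.End F X.H := 1 - ∑ k ∈ (Finset.range i).filter (fun k => Even (k + r)), X.π k
      with hN
    set M : Module.End F X.H :=
      par X i - ∑ k ∈ (Finset.range i).filter (fun k => Even (k + r)), X.π (2 * X.dim - k) with hM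
    have hN0 : N ∈ X.corr 0 := by
      refine (X.corr 0).sub_mem X.corr_one (X.corr_sum _ _ fun k hk => ?_)
      obtain ⟨h1, h2⟩ := Finset.mem_filter.mp hk
      have h3 := Finset.mem_range.mp h1
      exact (ih k h3 (by omega) h2).1
    have hM0 : M ∈ X.corr 0 := by
      refine (X.corr 0).sub_mem (par_alg hC i) (X.corr_sum _ _ fun k hk => ?_)
      obtain ⟨h1, h2⟩ := Finset.mem_filter.mp hk
      have h3 := Finset.mem_range.mp h1
      exact (ih k h3 (by omega) h2).2
    have hNx : ∀ (j : ℤ) (x : X.H), X.π j x = x → (∀ k : ℕ, k < i → Even (k + r) → (k : ℤ) ≠ j) →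
        N x = x := by
      intro j x hx h
      rw [hN, LinearMap.sub_apply, Module.End.one_apply, LinearMap.sum_apply,
        Finset.sum_eq_zero, sub_zero]
      intro k hk
      obtain ⟨h1, h2⟩ := Finset.mem_filter.mp hk
      exact X.π_apply_ne (h k (Finset.mem_range.mp h1) h2) hx
    have hNx0 : ∀ (k : ℕ) (x : X.H), X.π k x = x → k < i → Even (k + r) → N x = 0 := by
      intro k x hx hk he
      rw [hN, LinearMap.sub_apply, Module.End.one_apply, LinearMap.sum_apply,
        Finset.sum_eq_single k, hx, sub_self]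
      · intro l _ hlk
        exact X.π_apply_ne (by exact_mod_cast hlk) hx
      · intro h
        exact absurd (Finset.mem_filter.mpr ⟨Finset.mem_range.mpr hk, he⟩) h
    have hMx : ∀ (j : ℤ) (x : X.H), X.π j x = x →
        (∀ k : ℕ, k < i → Even (k + r) → 2 * (X.dim : ℤ) - k ≠ j) →
        M x = par X i x := by
      intro j x hx h
      rw [hM, LinearMap.sub_apply, LinearMap.sum_apply, Finset.sum_eq_zero, sub_zero]
      intro k hk
      obtain ⟨h1, h2⟩ := Finset.mem_filter.mp hk
      exact X.π_apply_ne (h k (Finset.mem_range.mp h1) h2) hx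
    have hMx0 : ∀ (k : ℕ) (x : X.H), X.π (2 * X.dim - k) x = x → k < i → Even (k + r) →
        M x = 0 := by
      intro k x hx hk he
      rw [hM, LinearMap.sub_apply, LinearMap.sum_apply, Finset.sum_eq_single k, hx,
        par_apply i hx, if_pos, sub_self]
      · obtain ⟨p, hp⟩ := he
        obtain ⟨q, hq⟩ := hev
        exact ⟨X.dim + q - p, by omega⟩
      · intro l _ hlk
        exact X.π_apply_ne (by omega) hx
      · intro h
        exact absurd (Finset.mem_filter.mpr ⟨Finset.mem_range.mpr hk, he⟩) h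
    have hπi : X.π i = κ * M * X.L ^ (X.dim - i) * N := by
      apply X.ext_homog
      intro j x hx
      have hLx : X.π (j + 2 * (X.dim - i : ℕ)) ((X.L ^ (X.dim - i)) x) = (X.L ^ (X.dim - i)) x :=
        X.corr_homog (X.Lpow_corr _) rfl hx
      simp only [Module.End.mul_apply]
      rcases lt_or_ge j 0 with hj0 | hj0
      · rw [X.homog_zero (Or.inl hj0) hx]
        simp
      obtain ⟨j, rfl⟩ := Int.eq_ofNat_of_zero_le hj0
      by_cases hji : j = i
      · subst hji
        rw [hNx j x hx (fun k hk _ => by omega), hMx _ _ hLx (fun k hk _ => by omega),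
          par_apply _ hLx, if_pos, hκL x hx, hx]
        rw [hcast]
        exact ⟨X.dim, by ring⟩
      rw [X.π_apply_ne (by omega) hx]
      symm
      by_cases hjlt : j < i ∧ Even (j + r)
      · rw [hNx0 j x hx hjlt.1 hjlt.2]
        simp
      rw [hNx j x hx (fun k hk he => by
        intro h
        have : k = j := by exact_mod_cast h
        subst this
        exact hjlt ⟨hk, he⟩)]
      by_cases hpar : Even (j + r)
      · have hlt : i < j := by
          rcases lt_or_ge j i with h | h
          · exact absurd ⟨h, hpar⟩ hjlt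
          · omega
        rcases lt_or_ge (2 * (X.dim : ℤ)) ((j : ℤ) + 2 * (X.dim - i : ℕ)) with h2 | h2
        · rw [X.homog_zero (Or.inr h2) hLx]
          simp
        · have hk : ∃ k : ℕ, (k : ℤ) = 2 * i - j := ⟨2 * i - j, by omega⟩
          obtain ⟨k, hk⟩ := hk
          rw [hMx0 k _ (by
            rw [show 2 * (X.dim : ℤ) - k = (j : ℤ) + 2 * (X.dim - i : ℕ) by omega]
            exact hLx) (by omega) (by
              obtain ⟨p, hp⟩ := hpar
              obtain ⟨q, hq⟩ := hev
              exact ⟨i + r - p, by omega⟩), map_zero]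
      · have hMz : M ((X.L ^ (X.dim - i)) x) = 0 := by
          rw [hMx _ _ hLx (fun k hk he => by
            intro h
            apply hpar
            obtain ⟨p, hp⟩ := he
            obtain ⟨q, hq⟩ := hev
            exact ⟨i + r - p, by omega⟩), par_apply _ hLx, if_neg]
          intro h
          apply hpar
          obtain ⟨p, hp⟩ := h
          obtain ⟨q, hq⟩ := hev
          rw [hcast] at hp
          exact ⟨(p - X.dim + q).toNat, by omega⟩
        rw [hMz, map_zero]
    have h1 : X.π i ∈ X.corr 0 := by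
      rw [hπi]
      refine X.corr_mul' (by ring) (X.corr_mul' (t := 0) ?_
        (X.corr_mul' (t := i - X.dim) (by ring) hκ' hM0) (X.Lpow_corr _)) hN0
      rw [hcast]; ring
    refine ⟨h1, ?_⟩
    have hπd : X.π (2 * X.dim - i) = X.L ^ (X.dim - i) * X.π i * κ := by
      apply X.ext_homog
      intro j x hx
      have hκx : X.π (j + 2 * (i - X.dim)) (κ x) = κ x := X.corr_homog hκ' rfl hx
      simp only [Module.End.mul_apply]
      by_cases hj : 2 * (X.dim : ℤ) - i = j
      · subst hj
        rw [show 2 * (X.dim : ℤ) - i + 2 * (i - X.dim) = i by ring] at hκx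
        rw [hκx, hx]
        obtain ⟨z, hz, hzx⟩ := X.hard_surj i (hi.trans hr) x hx
        rw [← hzx, hκL z hz]
      · rw [X.π_apply_ne hj hx, X.π_apply_ne (by omega) hκx, map_zero]
    rw [hπd]
    refine X.corr_mul' (by ring) (X.corr_mul' (t := X.dim - i) ?_ (X.Lpow_corr _) h1) hκ'
    rw [hcast]; ring

/-- **Quasi-inverses of operators of large degree.** Let `β` be an algebraic operator of degree
`c < dim X`, commuting with `L`, such that the `β L^(dim-i-c)` are injective on `H^i`. If `B` of `X`
is known in the degrees `i ≤ r = dim X - c - 1`, `i ≡ r` modulo `2`, then `β` has an algebraic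
quasi-inverse in the degrees of that parity. -/
theorem quasiInverse_of_lefschetz (hC : X.CPlus) {c r : ℕ} (hr : r + c + 1 = X.dim)
    {β : Module.End F X.H} (hβ : β ∈ X.corr c) (comm : ∀ x, β (X.L x) = X.L (β x))
    (inj : ∀ i ≤ r, Even (i + r) → ∀ x, X.π i x = x →
      β ((X.L ^ (X.dim - i - c)) x) = 0 → x = 0)
    (hL : ∀ i ≤ r, Even (i + r) → LefschetzIn X i) : QuasiInverse X β c r := by
  have hproj := proj_low X hC (by omega : r ≤ X.dim) hL
  have commp : ∀ k x, β ((X.L ^ k) x) = (X.L ^ k) (β x) := by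
    intro k
    induction k with
    | zero => intro x; rfl
    | succ k ih =>
      intro x
      rw [pow_succ', Module.End.mul_apply, Module.End.mul_apply, comm, ih]
  have hinv : ∀ i ≤ r, Even (i + r) → ∃ κ' ∈ X.corr (i - X.dim),
      (∀ x, X.π i x = x → κ' (β ((X.L ^ (X.dim - i - c)) x)) = x) ∧
      ∀ w, X.π (2 * X.dim - i) w = w → β ((X.L ^ (X.dim - i - c)) (κ' w)) = w := by
    intro i hi he
    obtain ⟨κ, hκ, hκL⟩ := hL i hi he (by omega)
    have hB : β * X.L ^ (X.dim - i - c) ∈ X.corr (X.dim - i) := by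
      refine X.corr_mul' ?_ hβ (X.Lpow_corr _)
      have : ((X.dim - i - c : ℕ) : ℤ) = X.dim - i - c := by omega
      rw [this]; ring
    exact exists_inverse X (by omega) (hproj i hi he).1 hκ hκL hB (inj i hi he)
  choose! κ' hκ' hκ'1 hκ'2 using hinv
  set I := (Finset.range (r + 1)).filter (fun i => Even (i + r)) with hI
  have hmem : ∀ i, i ∈ I → i ≤ r ∧ Even (i + r) := by
    intro i hi
    obtain ⟨h1, h2⟩ := Finset.mem_filter.mp hi
    exact ⟨Nat.lt_succ_iff.mp (Finset.mem_range.mp h1), h2⟩
  set θ : Module.End F X.H := ∑ i ∈ I, (X.π i * κ' i * X.L ^ (X.dim - i - c) +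
    X.L ^ (X.dim - i - c) * κ' i * X.π (2 * X.dim - i)) with hθ
  refine ⟨θ, ?_, ?_⟩
  · show θ ∈ X.corr (-c)
    refine X.corr_sum _ _ fun i hi => ?_
    obtain ⟨h1, h2⟩ := hmem i hi
    have hcast : ((X.dim - i - c : ℕ) : ℤ) = X.dim - i - c := by omega
    refine (X.corr (-c)).add_mem ?_ ?_
    · refine X.corr_mul' ?_ (X.corr_mul' (t := i - X.dim) (by ring) (hproj i h1 h2).1
        (hκ' i h1 h2)) (X.Lpow_corr _)
      rw [hcast]; ring
    · refine X.corr_mul' (by ring) (X.corr_mul' (t := -c) ?_ (X.Lpow_corr _)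
        (hκ' i h1 h2)) (hproj i h1 h2).2
      rw [hcast]; ring
  · intro j x hj hx
    have hw : X.π (j + 2 * c) (β x) = β x := X.corr_homog hβ rfl hx
    rcases lt_or_ge j 0 with hj0 | hj0
    · rw [X.homog_zero (Or.inl hj0) hx]
      simp
    rcases lt_or_ge (2 * (X.dim : ℤ)) (j + 2 * c) with hj1 | hj1
    · rw [X.homog_zero (Or.inr hj1) hw]
      simp
    obtain ⟨j, rfl⟩ := Int.eq_ofNat_of_zero_le hj0
    have hjr : Even (j + r) := by exact_mod_cast hj
    -- the two parts of the terms of `θ`
    have hfst : ∀ i ∈ I, X.π i (κ' i ((X.L ^ (X.dim - i - c)) (β x))) =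
        if i = j then κ' i ((X.L ^ (X.dim - i - c)) (β x)) else 0 := by
      intro i hi
      obtain ⟨h1, h2⟩ := hmem i hi
      have hcast : ((X.dim - i - c : ℕ) : ℤ) = X.dim - i - c := by omega
      have hh : X.π (j : ℤ) (κ' i ((X.L ^ (X.dim - i - c)) (β x))) =
          κ' i ((X.L ^ (X.dim - i - c)) (β x)) := by
        refine X.corr_homog (hκ' i h1 h2) (i := (j : ℤ) + 2 * c + 2 * (X.dim - i - c : ℕ)) ?_ ?_
        · rw [hcast]; ring
        · exact X.corr_homog (X.Lpow_corr _) rfl hw
      split_ifs with h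
      · subst h; exact hh
      · exact X.π_apply_ne (by exact_mod_cast h) hh
    have hsum : θ (β x) = ∑ i ∈ I, ((if i = j then κ' i ((X.L ^ (X.dim - i - c)) (β x)) else 0) +
        (X.L ^ (X.dim - i - c)) (κ' i (X.π (2 * X.dim - i) (β x)))) := by
      rw [hθ, LinearMap.sum_apply]
      refine Finset.sum_congr rfl fun i hi => ?_
      rw [LinearMap.add_apply]
      simp only [Module.End.mul_apply]
      rw [hfst i hi]
    rcases Nat.lt_or_ge r j with hlt | hle
    · -- `H^(j+2c)` is in high degree
      obtain ⟨i, hi⟩ : ∃ i : ℕ, (i : ℤ) = 2 * X.dim - j - 2 * c := ⟨2 * X.dim - j - 2 * c, by omega⟩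
      have hir : i ≤ r ∧ Even (i + r) := by
        obtain ⟨p, hp⟩ := hjr
        refine ⟨by omega, 2 * r + 1 - p, by omega⟩
      have hiI : i ∈ I := Finset.mem_filter.mpr ⟨Finset.mem_range.mpr (by omega), hir.2⟩
      rw [hsum, Finset.sum_eq_single i]
      · rw [if_neg (by omega), zero_add]
        have hw' : X.π (2 * X.dim - i) (β x) = β x := by
          rw [show 2 * (X.dim : ℤ) - i = (j : ℤ) + 2 * c by omega]; exact hw
        rw [hw']
        exact hκ'2 i hir.1 hir.2 _ hw'
      · intro l hl hli
        obtain ⟨h1, h2⟩ := hmem l hl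
        rw [if_neg (by omega), X.π_apply_ne (by omega) hw, map_zero, map_zero, add_zero]
      · intro h
        exact absurd hiI h
    · -- `H^j` is in low degree
      have hjI : j ∈ I := Finset.mem_filter.mpr ⟨Finset.mem_range.mpr (by omega), hjr⟩
      rw [hsum, Finset.sum_eq_single j]
      · rw [if_pos rfl, X.π_apply_ne (by omega) hw, map_zero, map_zero, add_zero, ← commp,
          hκ'1 j hle hjr x hx]
      · intro l hl hlj
        obtain ⟨h1, h2⟩ := hmem l hl
        rw [if_neg hlj, X.π_apply_ne (by omega) hw, map_zero, map_zero, add_zero]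
      · intro h
        exact absurd hjI h

end Pool.Agent.Helper47.PB
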