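import Pool.Agent.Helper47.PB.Prod
import Pool.Agent.Helper29.CPB.Idem

/-!
# Quasi-inverses on products: the converse
-/

set_option linter.unusedSectionVars false

namespace Pool.Agent.Helper47.PB

open Pool.Agent.Helper29.CPB TensorProduct

universe u v

variable {F : Type u} [Field F] [CharZero F]

namespace IsLambda

variable {Y : Variety.{u, v} F} {Λ : Module.End F Y.H} (hΛ : IsLambda Y Λ)

include hΛ

lemma LLL : Y.L * Λ * Y.L = Y.L := by
  apply Y.ext_homog
  intro j y hy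
  simp only [Module.End.mul_apply]
  rcases lt_or_ge j Y.dim with hj | hj
  · rw [hΛ.low j y hj hy]
  · exact hΛ.high (j + 2) (Y.L y) (by omega) (Y.corr_homog Y.L_corr (by ring) hy)

/-- `Λ` vanishes on primitive classes -/
lemma prim_zero {m : ℕ} {y : Y.H} (hy : Y.π (Y.dim - m) y = y) (hp : (Y.L ^ (m + 1)) y = 0) :
    Λ y = 0 := by
  have h1 := hΛ.prim m y hy
  rw [map_sub, hp, zero_sub, neg_eq_zero, ← Module.End.mul_apply, ← pow_succ] at h1
  have h2 : Y.π ((Y.dim : ℤ) - m - 2) (Λ y) = Λ y := Y.corr_homog hΛ.corr (by ring) hy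
  exact L_inj Y (s := m + 1 + 1) (by push_cast; omega) h2 h1

/-- only strings of length `m` reach the primitive part of degree `dim Y - m` -/
lemma string_ne {m k : ℕ} (hk : k ≠ m) :
    Y.π (Y.dim - m) * (1 - Y.L * Λ) * Λ ^ k * (1 - Λ * Y.L) = 0 := by
  apply Y.ext_homog
  intro q y hy
  simp only [Module.End.mul_apply, LinearMap.sub_apply, Module.End.one_apply,
    LinearMap.zero_apply]
  rcases lt_or_ge q Y.dim with hq | hq
  · rw [hΛ.low q y hq hy, sub_self]
    simp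
  obtain ⟨m₀, hm₀⟩ : ∃ m₀ : ℕ, q = Y.dim + m₀ := ⟨(q - Y.dim).toNat, by omega⟩
  subst hm₀
  have hzd : Y.π (Y.dim + m₀) (y - Λ (Y.L y)) = y - Λ (Y.L y) := by
    rw [map_sub, hy]
    congr 1
    exact Y.corr_homog hΛ.corr (by ring) (Y.corr_homog Y.L_corr rfl hy)
  have hLz : Y.L (y - Λ (Y.L y)) = 0 := by
    have h1 := congrArg (fun f => f y) hΛ.LLL
    simp only [Module.End.mul_apply] at h1
    rw [map_sub, h1, sub_self]
  by_cases h : k = m₀
  · subst h
    have hud : Y.π (Y.dim - k) ((Λ ^ k) (y - Λ (Y.L y))) = (Λ ^ k) (y - Λ (Y.L y)) :=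
      Y.corr_homog (Y.corr_pow hΛ.corr k) (by ring) hzd
    have hwd : Y.π (Y.dim - k) ((Λ ^ k) (y - Λ (Y.L y)) - Y.L (Λ ((Λ ^ k) (y - Λ (Y.L y))))) =
        (Λ ^ k) (y - Λ (Y.L y)) - Y.L (Λ ((Λ ^ k) (y - Λ (Y.L y)))) := by
      rw [map_sub, hud]
      congr 1
      exact Y.corr_homog Y.L_corr (by ring) (Y.corr_homog hΛ.corr rfl hud)
    exact Y.π_apply_ne (by omega) hwd
  · rw [hΛ.str m₀ _ hzd hLz k h, map_zero]

end IsLambda

namespace IsProd

variable {Z Y T : Variety.{u, v} F} {τ : (Z.H ⊗[F] Y.H) ≃ₗ[F] T.H} (hP : IsProd Z Y T τ)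

include hP in
/-- **Quasi-inverses on products, converse.** -/
theorem quasiInverse_conv (hB : Y.Lefschetz) (hq : QuasiInverse T (T.L ^ 1) 1 T.dim) {m : ℕ}
    (hm : m ≤ Y.dim) (hprim : HasPrimitive Y m) :
    QuasiInverse Z (Z.L ^ (m + 1)) (m + 1) (Z.dim + m) := by
  obtain ⟨Λ, hΛ⟩ := exists_lambda Y hB
  have hK : ∀ i, Y.π i ∈ Y.corr 0 := kunneth_of_lefschetz Y hB
  set n := Y.dim with hn
  have hLL : Y.L * Λ * Y.L = Y.L := hΛ.LLL
  obtain ⟨γT, hγT, hγq⟩ := hq
  set γ : Module.End F (Z.H ⊗[F] Y.H) := τ.symm.conj γT with hγ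
  have hγτ : τ.conj γ = γT := by
    apply LinearMap.ext
    intro x
    simp [hγ, LinearEquiv.conj_apply_apply]
  have hγc : γ ∈ hP.corr (-1) := by
    rw [mem_corr, hγτ]
    exact_mod_cast hγT
  set N := Z.dim + n + 1 with hN
  set X : Module.End F (Z.H ⊗[F] Y.H) := TensorProduct.map Z.L 1 with hX
  set V : Module.End F (Z.H ⊗[F] Y.H) := TensorProduct.map 1 Y.L with hV
  set D : Module.End F (Z.H ⊗[F] Y.H) := TensorProduct.map 1 Λ with hD
  have hXV : Commute X V := by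
    show X * V = V * X
    rw [hX, hV, ← TensorProduct.map_mul, ← TensorProduct.map_mul, one_mul, one_mul, mul_one,
      mul_one]
  have hXD : Commute X D := by
    show X * D = D * X
    rw [hX, hD, ← TensorProduct.map_mul, ← TensorProduct.map_mul, one_mul, one_mul, mul_one,
      mul_one]
  have hVDV : V * D * V = V := by
    rw [hV, hD, ← TensorProduct.map_mul, ← TensorProduct.map_mul, one_mul, one_mul, hLL]
  have hXp : ∀ k, X ^ k = TensorProduct.map (Z.L ^ k) 1 := by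
    intro k
    rw [hX, TensorProduct.map_pow, one_pow]
  have hXN : X ^ (N + 1) = 0 := by
    rw [hXp]
    have h1 : Z.L ^ (N + 1) = 0 := by
      apply Z.ext_homog
      intro j x hx
      rw [LinearMap.zero_apply]
      rcases lt_or_ge j 0 with h0 | h0
      · rw [Z.homog_zero (Or.inl h0) hx, map_zero]
      · exact Z.homog_zero (Or.inr (by push_cast; omega)) (Z.corr_homog (Z.Lpow_corr (N + 1)) rfl hx)
    rw [h1]
    ext a y
    simp
  have hXN' : (-X) ^ (N + 1) = 0 :=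
    (neg_pow X (N + 1)).trans (by rw [hXN, mul_zero])
  set E := ∑ k ∈ Finset.range (N + 1), (-X) ^ k * (1 - V * D) * D ^ k with hE
  have e2 : E * (X + V) = -∑ k ∈ Finset.range N, (-X) ^ (k + 1) * (1 - V * D) * D ^ k *
      (1 - D * V) := by
    have := ring_two hXV hXD hVDV N
    rw [hXN', zero_mul, zero_mul, neg_zero, zero_sub] at this
    exact this
  set Pm : Module.End F (Z.H ⊗[F] Y.H) := TensorProduct.map 1 (Y.π (n - m)) with hPm
  set A : Module.End F Y.H := (1 - Y.L * Λ) * Y.π (n - m) with hA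
  set B : Module.End F Y.H := Y.π (n - m) * (1 - Y.L * Λ) * Λ ^ m * (1 - Λ * Y.L) with hBd
  have hPmX : ∀ k, Pm * (-X) ^ k = (-X) ^ k * Pm := by
    intro k
    have h1 : Commute Pm X := by
      show Pm * X = X * Pm
      rw [hX, hPm, ← TensorProduct.map_mul, ← TensorProduct.map_mul, one_mul, one_mul, mul_one,
        mul_one]
    exact (h1.neg_right.pow_right k).eq
  have hmap : ∀ k, Pm * (1 - V * D) * D ^ k * (1 - D * V) =
      TensorProduct.map 1 (Y.π (n - m) * (1 - Y.L * Λ) * Λ ^ k * (1 - Λ * Y.L)) := by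
    intro k
    have h1 : (1 : Module.End F (Z.H ⊗[F] Y.H)) - V * D = TensorProduct.map 1 (1 - Y.L * Λ) := by
      ext a y
      simp [hV, hD, tmul_sub]
    have h2 : (1 : Module.End F (Z.H ⊗[F] Y.H)) - D * V = TensorProduct.map 1 (1 - Λ * Y.L) := by
      ext a y
      simp [hV, hD, tmul_sub]
    rw [h1, h2, hPm, hD, TensorProduct.map_pow, one_pow, ← TensorProduct.map_mul,
      ← TensorProduct.map_mul, ← TensorProduct.map_mul, one_mul, one_mul, one_mul]
  have e3 : Pm * (E * (X + V)) = -((-X) ^ (m + 1) * TensorProduct.map 1 B) := by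
    have hmn : ∀ P S : Module.End F (Z.H ⊗[F] Y.H), P * (-S) = -(P * S) := by
      intro P S
      apply LinearMap.ext
      intro t
      rw [Module.End.mul_apply, LinearMap.neg_apply, LinearMap.neg_apply, map_neg]; rfl
    have hterm : ∀ k, Pm * ((-X) ^ (k + 1) * (1 - V * D) * D ^ k * (1 - D * V)) =
        (-X) ^ (k + 1) *
          TensorProduct.map 1 (Y.π (n - m) * (1 - Y.L * Λ) * Λ ^ k * (1 - Λ * Y.L)) := by
      intro k
      rw [← hmap k]
      have h1 : Pm * ((-X) ^ (k + 1) * (1 - V * D) * D ^ k * (1 - D * V)) =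
          Pm * (-X) ^ (k + 1) * ((1 - V * D) * D ^ k * (1 - D * V)) := by
        simp only [mul_assoc]
      rw [h1, hPmX]
      simp only [mul_assoc]
    rw [e2, hmn, Finset.mul_sum, Finset.sum_eq_single m]
    · rw [hterm]
    · intro k _ hk
      rw [hterm, hΛ.string_ne hk]
      ext a y
      simp
    · intro h
      exact absurd (Finset.mem_range.mpr (by omega)) h
  have hneg : ∀ (W : Module.End F (Z.H ⊗[F] Y.H)) (k : ℕ) (w : Z.H ⊗[F] Y.H),
      ((-W) ^ k) w = ((-1 : F) ^ k) • (W ^ k) w := by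
    intro W k
    induction k with
    | zero => intro w; simp
    | succ k ih =>
      intro w
      rw [pow_succ', Module.End.mul_apply, ih, pow_succ' W, Module.End.mul_apply, map_smul,
        LinearMap.neg_apply, pow_succ', neg_one_mul, smul_neg, neg_smul]
  have hXa : ∀ (k : ℕ) (b : Z.H) (w : Y.H), (X ^ k) (b ⊗ₜ w) = ((Z.L ^ k) b) ⊗ₜ w := by
    intro k b w
    rw [hXp, TensorProduct.map_tmul]; rfl
  have hVa : ∀ (k : ℕ) (b : Z.H) (w : Y.H), (V ^ k) (b ⊗ₜ w) = b ⊗ₜ ((Y.L ^ k) w) := by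
    intro k b w
    rw [hV, TensorProduct.map_pow, one_pow, TensorProduct.map_tmul]; rfl
  have hDa : ∀ (k : ℕ) (b : Z.H) (w : Y.H), (D ^ k) (b ⊗ₜ w) = b ⊗ₜ ((Λ ^ k) w) := by
    intro k b w
    rw [hD, TensorProduct.map_pow, one_pow, TensorProduct.map_tmul]; rfl
  -- `E` on `H(Z) ⊗ w`, `w` primitive
  have hEw : ∀ (b : Z.H) (w : Y.H), Y.π (n - m) w = w → (Y.L ^ (m + 1)) w = 0 →
      Pm (E (b ⊗ₜ w)) = b ⊗ₜ w := by
    intro b w hw hwp
    have hΛw : Λ w = 0 := hΛ.prim_zero hw hwp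
    have h1 : E (b ⊗ₜ w) = b ⊗ₜ w := by
      rw [hE, LinearMap.sum_apply, Finset.sum_eq_single 0]
      · rw [pow_zero, pow_zero, one_mul, mul_one, LinearMap.sub_apply, Module.End.one_apply,
          Module.End.mul_apply]
        have h3 := hDa 1 b w
        rw [pow_one, pow_one] at h3
        rw [h3, hΛw, tmul_zero, map_zero, sub_zero]
      · intro k _ hk
        rw [Module.End.mul_apply, hDa]
        obtain ⟨l, rfl⟩ : ∃ l, k = l + 1 := ⟨k - 1, by omega⟩
        have h5 : (Λ ^ (l + 1)) w = 0 := by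
          rw [pow_succ, Module.End.mul_apply, hΛw, map_zero]
        rw [h5, tmul_zero, map_zero]
      · intro h
        exact absurd (Finset.mem_range.mpr (by omega)) h
    rw [h1, hPm, TensorProduct.map_tmul, hw]; rfl
  -- `(X + V) Q (b ⊗ w) = X^(m+1) (b ⊗ w)`
  have hQ : ∀ (b : Z.H) (w : Y.H), (Y.L ^ (m + 1)) w = 0 →
      (X + V) ((∑ i ∈ Finset.range (m + 1), X ^ i * (-V) ^ (m + 1 - 1 - i)) (b ⊗ₜ w)) =
        ((Z.L ^ (m + 1)) b) ⊗ₜ w := by
    intro b w hwp
    have h1 := (hXV.neg_right).mul_geom_sum₂ (m + 1)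
    rw [sub_neg_eq_add] at h1
    rw [← Module.End.mul_apply, h1, LinearMap.sub_apply, hXa, hneg, hVa, hwp, tmul_zero, smul_zero,
      sub_zero]
  -- the key relation
  have key : ∀ (p : ℤ) (a : Z.H) (w : Y.H), Z.π p a = a → Y.π (n - m) w = w →
      (Y.L ^ (m + 1)) w = 0 → Even (p + (Z.dim + m : ℕ)) →
      ((-1 : F) ^ m) • (X ^ (m + 1)) ((TensorProduct.map 1 B) (γ (((Z.L ^ (m + 1)) a) ⊗ₜ w))) =
        ((Z.L ^ (m + 1)) a) ⊗ₜ w := by
    intro p a w ha hw hwp hp
    set b := (∑ i ∈ Finset.range (m + 1), X ^ i * (-V) ^ (m + 1 - 1 - i)) (a ⊗ₜ[F] w) with hb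
    have hXVb : (X + V) b = ((Z.L ^ (m + 1)) a) ⊗ₜ w := hQ a w hwp
    -- the degree of `b`
    have hbd : T.π (p + (n - m) + 2 * m) (τ b) = τ b := by
      rw [hb, LinearMap.sum_apply, map_sum, map_sum]
      refine Finset.sum_congr rfl fun i hi => ?_
      have hi' := Finset.mem_range.mp hi
      rw [Module.End.mul_apply, hneg, hVa, map_smul, hXa, map_smul, map_smul]
      congr 1
      have h1 : Z.π (p + 2 * i) ((Z.L ^ i) a) = (Z.L ^ i) a := Z.corr_homog (Z.Lpow_corr i) rfl ha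
      have h2 : Y.π ((n : ℤ) - m + 2 * (m + 1 - 1 - i : ℕ)) ((Y.L ^ (m + 1 - 1 - i)) w) =
          (Y.L ^ (m + 1 - 1 - i)) w := Y.corr_homog (Y.Lpow_corr _) rfl hw
      have h3 := hP.grade _ _ _ _ h1 h2
      rwa [show p + 2 * (i : ℤ) + ((n : ℤ) - m + 2 * (m + 1 - 1 - i : ℕ)) =
        p + (n - m) + 2 * m by omega] at h3
    have hpar : Even (p + (n - m) + 2 * m + T.dim) := by
      rw [hP.dim]
      obtain ⟨t, ht⟩ := hp
      exact ⟨t + n, by push_cast at ht ⊢; omega⟩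
    have h1 := hγq _ _ hpar hbd
    have hconj : ∀ (f : Module.End F (Z.H ⊗[F] Y.H)) t, τ.conj f (τ t) = τ (f t) := by
      intro f t
      rw [LinearEquiv.conj_apply_apply, LinearEquiv.symm_apply_apply]
    have hTL : T.L = τ.conj (X + V) := hP.polar
    rw [pow_one, hTL, ← hγτ, hconj, hconj, hconj, hXVb] at h1
    have h2 := τ.injective h1
    have h3 : Pm (E ((X + V) (γ (((Z.L ^ (m + 1)) a) ⊗ₜ w)))) =
        Pm (E (((Z.L ^ (m + 1)) a) ⊗ₜ w)) := congrArg (fun t => Pm (E t)) h2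
    rw [hEw _ w hw hwp] at h3
    have h4 : Pm (E ((X + V) (γ (((Z.L ^ (m + 1)) a) ⊗ₜ w)))) =
        (Pm * (E * (X + V))) (γ (((Z.L ^ (m + 1)) a) ⊗ₜ w)) := rfl
    rw [h4, e3, LinearMap.neg_apply, Module.End.mul_apply, hneg, pow_succ, mul_neg_one, neg_smul,
      neg_neg] at h3
    exact h3
  -- the projector `A` to the primitive part
  have hAw : ∀ y, Y.π (n - m) (A y) = A y ∧ (Y.L ^ (m + 1)) (A y) = 0 := by
    intro y
    have h1 : A y = Y.π (n - m) y - Y.L (Λ (Y.π (n - m) y)) := by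
      rw [hA, Module.End.mul_apply, LinearMap.sub_apply]; rfl
    have h2 := Y.π_apply_idem (n - m) y
    refine ⟨?_, ?_⟩
    · rw [h1, map_sub, h2]
      congr 1
      exact Y.corr_homog Y.L_corr (by ring) (Y.corr_homog hΛ.corr rfl h2)
    · rw [h1]
      exact hΛ.prim m _ h2
  have hAid : ∀ w, Y.π (n - m) w = w → (Y.L ^ (m + 1)) w = 0 → A w = w := by
    intro w hw hwp
    rw [hA, Module.End.mul_apply, LinearMap.sub_apply, hw, Module.End.mul_apply,
      hΛ.prim_zero hw hwp, map_zero, sub_zero]; rfl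
  have hAA : A * A = A := by
    apply LinearMap.ext
    intro y
    rw [Module.End.mul_apply]
    exact hAid _ (hAw y).1 (hAw y).2
  have hA0 : A ≠ 0 := by
    obtain ⟨y, hy0, hy, hyp⟩ := hprim
    intro h
    apply hy0
    rw [← hAid y hy hyp, h, LinearMap.zero_apply]
  have hAc : A ∈ Y.corr 0 :=
    Y.corr_mul' (by ring) ((Y.corr 0).sub_mem Y.corr_one
      (Y.corr_mul' (by ring) Y.L_corr hΛ.corr)) (hK _)
  have hBc : B ∈ Y.corr (-m) := by
    have h1 : 1 - Λ * Y.L ∈ Y.corr 0 :=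
      (Y.corr 0).sub_mem Y.corr_one (Y.corr_mul' (by ring) hΛ.corr Y.L_corr)
    have h2 : Y.π (n - m) * (1 - Y.L * Λ) ∈ Y.corr 0 :=
      Y.corr_mul' (by ring) (hK _) ((Y.corr 0).sub_mem Y.corr_one
        (Y.corr_mul' (by ring) Y.L_corr hΛ.corr))
    have h3 : Y.π (n - m) * (1 - Y.L * Λ) * Λ ^ m ∈ Y.corr (-m) :=
      Y.corr_mul' (by ring) h2 (Y.corr_pow hΛ.corr m)
    exact Y.corr_mul' (by ring) h3 h1
  -- the trace of `A`
  obtain ⟨q, hq⟩ := Y.corr_rat A hAc
  have hAsgn : A * Y.sgn = ((-1 : F) ^ ((n : ℤ) - m).natAbs) • A := by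
    apply Y.ext_homog
    intro j y hy
    rw [Module.End.mul_apply, Y.sgn_apply hy, map_smul, LinearMap.smul_apply]
    by_cases hj : (n : ℤ) - m = j
    · rw [hj]
    · have h1 : A y = 0 := by
        rw [hA, Module.End.mul_apply, Y.π_apply_ne hj hy, map_zero]
      rw [h1, smul_zero, smul_zero]
  have hq' : LinearMap.trace F Y.H (A * Y.sgn) = (q : F) := hq
  have hq0 : (q : F) ≠ 0 := by
    intro h
    rw [← hq', hAsgn, map_smul, smul_eq_mul, mul_eq_zero] at h
    rcases h with h | h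
    · exact pow_ne_zero _ (by norm_num) h
    · exact hA0 (idem_eq_zero_of_trace A hAA h)
  -- the quasi-inverse
  set γ' : Module.End F (Z.H ⊗[F] Y.H) := TensorProduct.map 1 B * γ * TensorProduct.map 1 A
    with hγ'
  have hγ'c : γ' ∈ hP.corr (-(m + 1 : ℕ)) := by
    refine hP.corr_mul (hP.corr_mul (hP.corr_map Z.corr_one hBc (t := -(m : ℤ)) (by ring)) hγc
      (t := -(m + 1 : ℕ)) (by push_cast; ring)) (hP.corr_map Z.corr_one hAc (t := 0) (by ring))
      (by ring)
  set θ := ptr (γ' * TensorProduct.map 1 Y.sgn) with hθ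
  have hθc : θ ∈ Z.corr (-(m + 1 : ℕ)) := hP.contr _ γ' hγ'c
  refine ⟨(((-1) ^ m * q⁻¹ : ℚ) : F) • θ, Z.corr_smul _ _ _ hθc, ?_⟩
  intro p x hp hx
  -- restrict to `H^p`
  have hop : ((-1 : F) ^ m) • (TensorProduct.map (Z.L ^ (m + 1)) 1 * γ' *
      TensorProduct.map (Z.L ^ (m + 1) * Z.π p) 1) =
      TensorProduct.map (Z.L ^ (m + 1) * Z.π p) A := by
    apply TensorProduct.ext'
    intro a y
    have h1 := key p (Z.π p a) (A y) (Z.π_apply_idem p a) (hAw y).1 (hAw y).2 hp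
    rw [hXp] at h1
    rw [LinearMap.smul_apply, Module.End.mul_apply, Module.End.mul_apply, TensorProduct.map_tmul,
      TensorProduct.map_tmul, hγ', Module.End.mul_apply, Module.End.mul_apply,
      TensorProduct.map_tmul, Module.End.one_apply, Module.End.one_apply, Module.End.mul_apply]
    exact h1
  have h2 : ((-1 : F) ^ m) • (Z.L ^ (m + 1) * θ * (Z.L ^ (m + 1) * Z.π p)) =
      (q : F) • (Z.L ^ (m + 1) * Z.π p) := by
    have h3 : ptr (((-1 : F) ^ m) • (TensorProduct.map (Z.L ^ (m + 1)) 1 * γ' *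
        TensorProduct.map (Z.L ^ (m + 1) * Z.π p) 1) * TensorProduct.map 1 Y.sgn) =
        ptr (TensorProduct.map (Z.L ^ (m + 1) * Z.π p) A * TensorProduct.map 1 Y.sgn) :=
      congrArg (fun f => ptr (f * TensorProduct.map 1 Y.sgn)) hop
    rw [← TensorProduct.map_mul, mul_one, ptr_map, hq'] at h3
    rw [← h3, hθ, ← ptr_mul]
    have h4 : ∀ (c : F) (f : Module.End F (Z.H ⊗[F] Y.H)), c • ptr f = ptr (c • f) := by
      intro c f
      unfold ptr
      simp only [map_smul]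
    rw [h4]
    congr 1
    rw [smul_mul_assoc]
    congr 1
    have h5 : (TensorProduct.map 1 Y.sgn : Module.End F (Z.H ⊗[F] Y.H)) *
        TensorProduct.map (Z.L ^ (m + 1) * Z.π p) 1 =
        TensorProduct.map (Z.L ^ (m + 1) * Z.π p) 1 * TensorProduct.map 1 Y.sgn := by
      rw [← TensorProduct.map_mul, ← TensorProduct.map_mul, one_mul, one_mul, mul_one, mul_one]
    rw [← mul_assoc, mul_assoc (_ * γ'), h5]
    simp only [mul_assoc]
  have h6 := congrArg (fun f => f x) h2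
  simp only [LinearMap.smul_apply, Module.End.mul_apply] at h6
  rw [hx] at h6
  rw [LinearMap.smul_apply, map_smul]
  push_cast
  rw [mul_comm, ← smul_smul, h6, smul_smul, inv_mul_cancel₀ hq0, one_smul]

end IsProd

end Pool.Agent.Helper47.PB
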