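import Pool.Agent.Helper47.PB.Bundle
import Pool.Agent.Helper47.PB.Low
import Pool.Agent.Helper47.PB.ProdConv

/-!
# Ample divisors of projective bundles and of products
-/

set_option linter.unusedSectionVars false

namespace Pool.Agent.Helper47.PB

open Pool.Agent.Helper29.CPB

universe u v

variable {F : Type u} [Field F] [CharZero F] {Z T S : Variety.{u, v} F} {c : ℕ}

/-- a quasi-inverse depends only on the parity of `n` -/
lemma QuasiInverse.congr {X : Variety.{u, v} F} {A : Module.End F X.H} {s n n' : ℕ}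
    (h : QuasiInverse X A s n) (hn : Even (n + n')) : QuasiInverse X A s n' := by
  obtain ⟨θ, hθ, h⟩ := h
  refine ⟨θ, hθ, fun j x hj hx => h j x ?_ hx⟩
  have h1 : Even ((n : ℤ) + n') := by exact_mod_cast hn
  have h2 := hj.add h1
  rw [show j + (n' : ℤ) + (n + n') = (j + n) + 2 * n' by ring] at h2
  rwa [Int.even_add, iff_true_right (even_two_mul _)] at h2

/-- for cyclic covers there is no condition -/
lemma quasiInverse_zero (X : Variety.{u, v} F) (n : ℕ) : QuasiInverse X (X.L ^ 0) 0 n := by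
  refine ⟨1, ?_, fun j x _ _ => rfl⟩
  have h := X.cycles.one
  rwa [show (0 : ℤ) = -((0 : ℕ) : ℤ) by simp] at h

/-- Let `β` be an algebraic operator of degree `c`, commuting with `L`, such that the
`β L^(d-i-c) : H^i → H^(2d-i)`, `d = dim Z`, are injective. `β` has a quasi-inverse on the `H^j(Z)`
with `j ≡ d - c - 1` if `B(Z)` is known in the degrees `i ≤ d - c - 1`, `i ≡ d - c - 1`. -/
theorem quasiInverse_beta (hZ : Z.CPlus) {β : Module.End F Z.H} (hβ : β ∈ Z.corr c)
    (comm : ∀ x, β (Z.L x) = Z.L (β x))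
    (inj : ∀ i : ℕ, i + c ≤ Z.dim → ∀ x, Z.π i x = x → β ((Z.L ^ (Z.dim - i - c)) x) = 0 → x = 0)
    (hL : ∀ i, i + c + 1 ≤ Z.dim → Even (i + c + 1 + Z.dim) → LefschetzIn Z i) :
    QuasiInverse Z β c (Z.dim + c + 1) := by
  rcases Nat.lt_or_ge c Z.dim with hlt | hge
  · have hr : (Z.dim - c - 1) + c + 1 = Z.dim := by omega
    refine QuasiInverse.congr (n := Z.dim - c - 1) ?_ ⟨Z.dim, by omega⟩
    refine quasiInverse_of_lefschetz Z hZ hr hβ comm ?_ ?_
    · intro i hi _ x hx h
      exact inj i (by omega) x hx h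
    · intro i hi he
      refine hL i (by omega) ?_
      obtain ⟨p, hp⟩ := he
      exact ⟨p + c + 1, by omega⟩
  · -- `c ≥ dim Z`: the operator vanishes
    refine ⟨0, Z.cycles.zero _, ?_⟩
    intro j x hj hx
    rw [LinearMap.zero_apply, map_zero]
    have h1 : Z.π (j + 2 * c) (β x) = β x := Z.corr_homog hβ rfl hx
    symm
    rcases lt_or_ge j 0 with h0 | h0
    · rw [Z.homog_zero (Or.inl h0) hx, map_zero]
    · apply Z.homog_zero (Or.inr _) h1
      obtain ⟨p, hp⟩ := hj
      push_cast at hp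
      omega

/-- `c_c` has a quasi-inverse if `B(Z)` is known in degrees `i ≤ dim Z - c - 1` -/
theorem quasiInverse_chern (B : ProjBundle Z T c) (hZ : Z.CPlus) (hB : B.BlochGieseker)
    (hL : ∀ i, i + c + 1 ≤ Z.dim → Even (i + c + 1 + Z.dim) → LefschetzIn Z i) :
    QuasiInverse Z (B.chern c) c T.dim := by
  have hd := B.dim
  exact QuasiInverse.congr (quasiInverse_beta hZ (B.chern_alg c) (B.chern_L c) hB hL)
    ⟨T.dim + 1, by omega⟩

/-- `L^(m+1)` has a quasi-inverse if `B(Z)` is known in degrees `i ≤ dim Z - m - 2` -/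
theorem quasiInverse_power (hZ : Z.CPlus) (m : ℕ)
    (hL : ∀ i, i + m + 2 ≤ Z.dim → Even (i + m + Z.dim) → LefschetzIn Z i) :
    QuasiInverse Z (Z.L ^ (m + 1)) (m + 1) (Z.dim + m) := by
  refine QuasiInverse.congr (quasiInverse_beta (c := m + 1) hZ (Z.Lpow_corr (m + 1)) ?_ ?_ ?_)
    ⟨Z.dim + m + 1, by omega⟩
  · intro x
    rw [← Module.End.mul_apply, ← Module.End.mul_apply, ← pow_succ, ← pow_succ']
  · intro i hi x hx h
    rw [← Module.End.mul_apply, ← pow_add, show m + 1 + (Z.dim - i - (m + 1)) = Z.dim - i by omega]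
      at h
    exact Z.hard_inj i (by omega) x hx h
  · intro i hi he
    refine hL i (by omega) ?_
    obtain ⟨p, hp⟩ := he
    exact ⟨p - 1, by omega⟩

/-- **Ample divisors of products.** -/
theorem cplus_product {Z Y T S : Variety.{u, v} F} {μ : Z.H → Y.H → T.H} (hP : Product Z Y T μ)
    (D : LefschetzMap T S 1) (hZ : Z.CPlus) (hY : Y.Lefschetz)
    (hL : ∀ m ≤ Y.dim, HasPrimitive Y m → ∀ i, i + m + 2 ≤ Z.dim → Even (i + m + Z.dim) →
      LefschetzIn Z i) : S.CPlus := by
  obtain ⟨τ, hτ⟩ := hP.isProd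
  have h1 := hτ.quasiInverse hY fun m hm hp => quasiInverse_power hZ m (hL m hm hp)
  have h2 : T.CPlus := hτ.cplus hZ (cplus_of_kunneth Y (kunneth_of_lefschetz Y hY))
  refine D.cplus h2 ?_
  rw [D.dim]
  exact h1

/-- **Generic divisors of products.** -/
theorem cplus_product_iff {Z Y T S : Variety.{u, v} F} {μ : Z.H → Y.H → T.H}
    (hP : Product Z Y T μ) (G : GenericSection T S 1) (hZ : Z.CPlus) (hY : Y.Lefschetz) :
    S.CPlus ↔ ∀ m ≤ Y.dim, HasPrimitive Y m →
      QuasiInverse Z (Z.L ^ (m + 1)) (m + 1) (Z.dim + m) := by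
  obtain ⟨τ, hτ⟩ := hP.isProd
  constructor
  · intro h m hm hp
    have h1 := quasiInverse_of_generic G h
    rw [G.dim] at h1
    exact hτ.quasiInverse_conv hY h1 hm hp
  · intro h
    have h1 := hτ.quasiInverse hY h
    have h2 : T.CPlus := hτ.cplus hZ (cplus_of_kunneth Y (kunneth_of_lefschetz Y hY))
    refine (ofGeneric G).cplus h2 ?_
    rw [G.dim]
    exact h1

end Pool.Agent.Helper47.PB
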