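import Pool.Agent.Helper47.PB.Main
import Pool.Agent.Helper29.CPB.Idem

/-!
# Quasi-inverses from the Lefschetz standard conjecture in low degrees
-/

set_option linter.unusedSectionVars false

namespace Pool.Agent.Helper47.PB

open Pool.Agent.Helper29.CPB Polynomial

universe u v

variable {F : Type u} [Field F] [CharZero F] (X : Variety.{u, v} F)

lemma mul_sgn_pow {f : Module.End F X.H} {i : ℕ} (hf : f * X.π i = f) (n : ℕ) (hn : 1 ≤ n) :
    f ^ n = ((-1 : F) ^ i) • (f ^ n * X.sgn) := by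
  obtain ⟨m, rfl⟩ : ∃ m, n = m + 1 := ⟨n - 1, by omega⟩
  have h1 : f * X.sgn = ((-1 : F) ^ i) • f := by
    have h2 : X.π i * X.sgn = ((-1 : F) ^ i) • X.π i := by
      apply X.ext_homog
      intro j x hx
      rw [Module.End.mul_apply, X.sgn_apply hx, map_smul, LinearMap.smul_apply]
      by_cases hij : (i : ℤ) = j
      · subst hij
        rw [Int.natAbs_natCast]
      · rw [X.π_apply_ne hij hx, smul_zero, smul_zero]
    conv_lhs => rw [← hf]
    rw [mul_assoc, h2, mul_smul_comm, hf]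
  rw [pow_succ, mul_assoc, h1, mul_smul_comm, smul_smul, ← mul_pow, neg_one_mul, neg_neg, one_pow,
    one_smul]

/-- An algebraic operator `B : H^i → H^(2d-i)` which is injective has an algebraic inverse, if `B`
of the variety is known in degree `i`. -/
lemma exists_inverse {i : ℕ} (hi : i ≤ X.dim) (hπ : X.π i ∈ X.corr 0) {κ B : Module.End F X.H}
    (hκ : κ ∈ X.corr (i - X.dim)) (hκL : ∀ x, X.π i x = x → κ ((X.L ^ (X.dim - i)) x) = x)
    (hB : B ∈ X.corr (X.dim - i)) (inj : ∀ x, X.π i x = x → B x = 0 → x = 0) :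
    ∃ κ' ∈ X.corr (i - X.dim), (∀ x, X.π i x = x → κ' (B x) = x) ∧
      ∀ w, X.π (2 * X.dim - i) w = w → B (κ' w) = w := by
  have hκdeg : ∀ w, X.π (2 * X.dim - i) w = w → X.π i (κ w) = κ w := fun w hw =>
    X.corr_homog hκ (by ring) hw
  have hBdeg : ∀ x, X.π i x = x → X.π (2 * X.dim - i) (B x) = B x := fun x hx =>
    X.corr_homog hB (by ring) hx
  have hκinj : ∀ w, X.π (2 * X.dim - i) w = w → κ w = 0 → w = 0 := by
    intro w hw h
    obtain ⟨z, hz, hzw⟩ := X.hard_surj i hi w hw
    have h1 := hκL z hz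
    rw [hzw, h] at h1
    rw [← hzw, ← h1, map_zero]
  set f : Module.End F X.H := κ * B * X.π i with hf
  have hf0 : f ∈ X.corr 0 :=
    X.corr_mul' (by ring) (X.corr_mul' (t := 0) (by ring) hκ hB) hπ
  have hfπ : f * X.π i = f := by rw [hf, mul_assoc, X.π_idem]
  have hfx : ∀ x, X.π i x = x → f x = κ (B x) := by
    intro x hx
    rw [hf, Module.End.mul_apply, hx, Module.End.mul_apply]
  have hfdeg : ∀ x, X.π i x = x → X.π i (f x) = f x := fun x hx => X.corr_homog hf0 (by ring) hx
  have hfinj : ∀ x, X.π i x = x → f x = 0 → x = 0 := by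
    intro x hx h
    rw [hfx x hx] at h
    exact inj x hx (hκinj _ (hBdeg x hx) h)
  have hrat : ∀ n, 1 ≤ n → ∃ q : ℚ, LinearMap.trace F X.H (f ^ n) = (q : F) := by
    intro n hn
    obtain ⟨q, hq⟩ := X.corr_rat (f ^ n) (X.corr_pow_zero hf0 n)
    refine ⟨(-1) ^ i * q, ?_⟩
    rw [mul_sgn_pow X hfπ n hn, map_smul]
    show ((-1 : F) ^ i) • LinearMap.trace F X.H (f ^ n * X.sgn) = _
    unfold Variety.sgn
    rw [hq]
    push_cast
    rfl
  obtain ⟨p, hp⟩ := rational_charpoly' f hrat
  have hp0 : p ≠ 0 := by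
    rintro rfl
    rw [Polynomial.map_zero] at hp
    exact f.charpoly_monic.ne_zero hp.symm
  obtain ⟨ψ, hψ, hψ0⟩ := Polynomial.exists_eq_pow_rootMultiplicity_mul_and_not_dvd p hp0 0
  rw [C_0, sub_zero] at hψ hψ0
  set m := p.rootMultiplicity 0 with hm
  have hc0 : ψ.coeff 0 ≠ 0 := by
    intro h
    exact hψ0 (Polynomial.X_dvd_iff.mpr h)
  set ev : ℚ[X] → Module.End F X.H := fun q => aeval f (q.map (algebraMap ℚ F)) with hev
  have ev_mul : ∀ q r, ev (q * r) = ev q * ev r := fun q r => by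
    simp only [hev, Polynomial.map_mul, map_mul]
  have hchar : ev p = 0 := by
    rw [hev]
    show aeval f (p.map (algebraMap ℚ F)) = 0
    rw [hp]; exact LinearMap.aeval_self_charpoly f
  have evX : ev Polynomial.X = f := by
    simp only [hev, Polynomial.map_X, aeval_X]
  have evpow : ∀ k, ev (Polynomial.X ^ k) = f ^ k := by
    intro k
    simp only [hev, Polynomial.map_pow, Polynomial.map_X, map_pow, aeval_X]
  have evdeg : ∀ q, ev q ∈ X.corr 0 := fun q => X.corr_aeval hf0 q
  have evhom : ∀ q x, X.π i x = x → X.π i (ev q x) = ev q x := fun q x hx =>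
    X.corr_homog (evdeg q) (by ring) hx
  -- `ψ(f) = 0` on `H^i`
  have hψx : ∀ x, X.π i x = x → ev ψ x = 0 := by
    intro x hx
    have h1 : ∀ k, (f ^ k) (ev ψ x) = 0 → ev ψ x = 0 := by
      intro k
      induction k with
      | zero => intro h; exact h
      | succ k ih =>
        intro h
        apply ih
        rw [pow_succ', Module.End.mul_apply] at h
        refine hfinj _ ?_ h
        exact X.corr_homog (X.corr_pow_zero hf0 k) (by ring) (evhom ψ x hx)
    apply h1 m
    rw [← evpow, ← Module.End.mul_apply, ← ev_mul, ← hψ, hchar, LinearMap.zero_apply]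
  set χ := ψ.divX with hχ
  have hdiv : Polynomial.X * χ + C (ψ.coeff 0) = ψ := Polynomial.X_mul_divX_add ψ
  have hfχ : ∀ x, X.π i x = x → f (ev χ x) = -((ψ.coeff 0 : ℚ) : F) • x := by
    intro x hx
    have h1 := hψx x hx
    rw [← hdiv] at h1
    have h2 : ev (Polynomial.X * χ + C (ψ.coeff 0)) x = f (ev χ x) + ((ψ.coeff 0 : ℚ) : F) • x := by
      simp only [hev, Polynomial.map_add, Polynomial.map_mul, Polynomial.map_X, Polynomial.map_C,
        map_add, map_mul, aeval_X, aeval_C, LinearMap.add_apply, Module.End.mul_apply,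
        Module.algebraMap_end_apply]
      rfl
    rw [h2] at h1
    rw [neg_smul]
    exact eq_neg_of_add_eq_zero_left h1
  have hcomm : ∀ x, f (ev χ x) = ev χ (f x) := by
    intro x
    have h1 : ev (Polynomial.X * χ) x = ev (χ * Polynomial.X) x := by rw [mul_comm]
    rw [ev_mul, ev_mul, evX] at h1
    exact h1
  have hcF : ((ψ.coeff 0 : ℚ) : F) ≠ 0 := by
    exact_mod_cast hc0
  set g : Module.End F X.H := ((-(ψ.coeff 0)⁻¹ : ℚ) : F) • ev χ with hg
  have hg0 : g ∈ X.corr 0 := X.corr_smul _ 0 _ (evdeg χ)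
  have hfg : ∀ x, X.π i x = x → f (g x) = x := by
    intro x hx
    rw [hg, LinearMap.smul_apply, map_smul, hfχ x hx, smul_smul]
    push_cast
    rw [neg_mul_neg, inv_mul_cancel₀ hcF, one_smul]
  have hgf : ∀ x, X.π i x = x → g (f x) = x := by
    intro x hx
    have h1 := hfg x hx
    rw [hg, LinearMap.smul_apply, map_smul, hcomm] at h1
    rw [hg, LinearMap.smul_apply]
    exact h1
  refine ⟨g * κ, X.corr_mul' (by ring) hg0 hκ, ?_, ?_⟩
  · intro x hx
    rw [Module.End.mul_apply, ← hfx x hx, hgf x hx]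
  · intro w hw
    have h1 : X.π i (g (κ w)) = g (κ w) := X.corr_homog hg0 (by ring) (hκdeg w hw)
    rw [Module.End.mul_apply]
    apply sub_eq_zero.mp
    apply hκinj
    · rw [map_sub, hBdeg _ h1, hw]
    · rw [map_sub, ← hfx _ h1, hfg _ (hκdeg w hw), sub_self]

end Pool.Agent.Helper47.PB
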