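import Pool.Agent.Helper29.CPB.Graded
import Pool.Agent.Helper29.CPB.Main

/-!
# The operator `Λ` of a variety for which `B` holds
-/

set_option linter.unusedSectionVars false

namespace Pool.Agent.Helper47.PB

open Pool.Agent.Helper29.CPB

universe u v

variable {F : Type u} [Field F] [CharZero F]

/-- The properties of Kleiman's operator `Λ`: `Λ (L^a x) = L^(a-1) x` for primitive `x`. -/
structure IsLambda (Y : Variety.{u, v} F) (Λ : Module.End F Y.H) : Prop where
  corr : Λ ∈ Y.corr (-1)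
  /-- `Λ L = 1` below the middle -/
  low : ∀ (j : ℤ) (y : Y.H), j < Y.dim → Y.π j y = y → Λ (Y.L y) = y
  /-- `L Λ = 1` above the middle -/
  high : ∀ (j : ℤ) (y : Y.H), (Y.dim : ℤ) < j → Y.π j y = y → Y.L (Λ y) = y
  /-- `1 - L Λ` projects to the primitive part -/
  prim : ∀ (m : ℕ) (y : Y.H), Y.π (Y.dim - m) y = y → (Y.L ^ (m + 1)) (y - Y.L (Λ y)) = 0
  /-- strings: from the top `z` of a string of length `m` one reaches its primitive bottom exactly
  after `m` steps -/
  str : ∀ (m : ℕ) (z : Y.H), Y.π (Y.dim + m) z = z → Y.L z = 0 → ∀ k, k ≠ m →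
    (Λ ^ k) z - Y.L (Λ ((Λ ^ k) z)) = 0

theorem exists_lambda (Y : Variety.{u, v} F) (hB : Y.Lefschetz) : ∃ Λ, IsLambda Y Λ := by
  have hK : ∀ i, Y.π i ∈ Y.corr 0 := kunneth_of_lefschetz Y hB
  have hB' : ∀ i : ℕ, i ≤ Y.dim → ∃ θ ∈ Y.corr (i - Y.dim), ∀ x, Y.π i x = x →
    θ ((Y.L ^ (Y.dim - i)) x) = x := hB
  choose! κ hκ hκL using hB'
  set n := Y.dim with hn
  have hκR : ∀ i : ℕ, i ≤ n → ∀ w, Y.π (2 * n - i) w = w → (Y.L ^ (n - i)) (κ i w) = w := by
    intro i hi w hw
    obtain ⟨z, hz, hzw⟩ := Y.hard_surj i hi w hw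
    rw [← hzw, hκL i hi z hz]
  set Λ : Module.End F Y.H :=
    ∑ i ∈ Finset.range (n - 1), κ i * Y.L ^ (n - 1 - i) * Y.π ((i : ℤ) + 2) +
    ∑ i ∈ Finset.range n, Y.L ^ (n - 1 - i) * κ i * Y.π (2 * n - i) with hΛ
  -- `Λ` on homogeneous elements
  have lam_low : ∀ (i : ℕ) (y : Y.H), i + 2 ≤ n → Y.π ((i : ℤ) + 2) y = y →
      Λ y = κ i ((Y.L ^ (n - 1 - i)) y) := by
    intro i y hi hy
    rw [hΛ, LinearMap.add_apply, LinearMap.sum_apply, LinearMap.sum_apply,
      Finset.sum_eq_single i, Finset.sum_eq_zero, add_zero]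
    · simp only [Module.End.mul_apply]
      rw [hy]
    · intro l hl
      have hl' := Finset.mem_range.mp hl
      simp only [Module.End.mul_apply]
      rw [Y.π_apply_ne (by omega) hy, map_zero, map_zero]
    · intro l hl hli
      simp only [Module.End.mul_apply]
      rw [Y.π_apply_ne (by omega) hy, map_zero, map_zero]
    · intro h
      exact absurd (Finset.mem_range.mpr (by omega)) h
  have lam_high : ∀ (i : ℕ) (y : Y.H), i < n → Y.π (2 * n - i) y = y →
      Λ y = (Y.L ^ (n - 1 - i)) (κ i y) := by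
    intro i y hi hy
    rw [hΛ, LinearMap.add_apply, LinearMap.sum_apply, LinearMap.sum_apply,
      Finset.sum_eq_zero, Finset.sum_eq_single i, zero_add]
    · simp only [Module.End.mul_apply]
      rw [hy]
    · intro l hl hli
      simp only [Module.End.mul_apply]
      rw [Y.π_apply_ne (by omega) hy, map_zero, map_zero]
    · intro h
      exact absurd (Finset.mem_range.mpr (by omega)) h
    · intro l hl
      have hl' := Finset.mem_range.mp hl
      simp only [Module.End.mul_apply]
      rw [Y.π_apply_ne (by omega) hy, map_zero, map_zero]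
  have lam_bot : ∀ (j : ℤ) (y : Y.H), j < 2 → j ≤ n → Y.π j y = y → Λ y = 0 := by
    intro j y hj hjn hy
    rw [hΛ, LinearMap.add_apply, LinearMap.sum_apply, LinearMap.sum_apply,
      Finset.sum_eq_zero, Finset.sum_eq_zero, zero_add]
    · intro l hl
      have hl' := Finset.mem_range.mp hl
      simp only [Module.End.mul_apply]
      rw [Y.π_apply_ne (by omega) hy, map_zero, map_zero]
    · intro l hl
      simp only [Module.End.mul_apply]
      rw [Y.π_apply_ne (by omega) hy, map_zero, map_zero]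
  have hcorr : Λ ∈ Y.corr (-1) := by
    refine (Y.corr (-1)).add_mem (Y.corr_sum _ _ fun i hi => ?_) (Y.corr_sum _ _ fun i hi => ?_)
    · have hi' := Finset.mem_range.mp hi
      refine Y.corr_mul' (by ring) (Y.corr_mul' (t := -1) ?_ (hκ i (by omega)) (Y.Lpow_corr _))
        (hK _)
      have : ((n - 1 - i : ℕ) : ℤ) = n - 1 - i := by omega
      rw [this]; ring
    · have hi' := Finset.mem_range.mp hi
      refine Y.corr_mul' (by ring) (Y.corr_mul' (t := -1) ?_ (Y.Lpow_corr _) (hκ i (by omega)))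
        (hK _)
      have : ((n - 1 - i : ℕ) : ℤ) = n - 1 - i := by omega
      rw [this]; ring
  have hlow : ∀ (j : ℤ) (y : Y.H), j < n → Y.π j y = y → Λ (Y.L y) = y := by
    intro j y hj hy
    rcases lt_or_ge j 0 with h0 | h0
    · rw [Y.homog_zero (Or.inl h0) hy]; simp
    obtain ⟨i, rfl⟩ := Int.eq_ofNat_of_zero_le h0
    have hi : i < n := by exact_mod_cast hj
    have hLy : Y.π ((i : ℤ) + 2) (Y.L y) = Y.L y := Y.corr_homog Y.L_corr (by ring) hy
    have hpow : (Y.L ^ (n - 1 - i)) (Y.L y) = (Y.L ^ (n - i)) y := by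
      rw [← Module.End.mul_apply, ← pow_succ, show n - 1 - i + 1 = n - i by omega]
    have key : κ i ((Y.L ^ (n - 1 - i)) (Y.L y)) = y := by
      rw [hpow]
      exact hκL i (by omega) y hy
    rcases Nat.lt_or_ge (i + 1) n with h1 | h1
    · rw [lam_low i _ (by omega) hLy, key]
    · have hin : i = n - 1 := by omega
      rw [lam_high i _ hi (by rw [show 2 * (n : ℤ) - i = (i : ℤ) + 2 by omega]; exact hLy)]
      have h2 : n - 1 - i = 0 := by omega
      rw [h2, pow_zero, Module.End.one_apply] at key ⊢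
      exact key
  have hhigh : ∀ (j : ℤ) (y : Y.H), (n : ℤ) < j → Y.π j y = y → Y.L (Λ y) = y := by
    intro j y hj hy
    rcases lt_or_ge (2 * (n : ℤ)) j with h0 | h0
    · rw [Y.homog_zero (Or.inr h0) hy]; simp
    obtain ⟨i, hi⟩ : ∃ i : ℕ, (i : ℤ) = 2 * n - j := ⟨(2 * n - j).toNat, by omega⟩
    have hy' : Y.π (2 * n - i) y = y := by rw [show 2 * (n : ℤ) - i = j by omega]; exact hy
    rw [lam_high i y (by omega) hy', ← Module.End.mul_apply, ← pow_succ',
      show n - 1 - i + 1 = n - i by omega]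
    exact hκR i (by omega) y hy'
  refine ⟨Λ, hcorr, hlow, hhigh, ?_, ?_⟩
  · intro m y hy
    rw [map_sub]
    rcases Nat.lt_or_ge n (m + 2) with h1 | h1
    · -- degrees `0`, `1`
      have h2 : Λ y = 0 := lam_bot _ y (by omega) (by omega) hy
      rw [h2, map_zero, map_zero, sub_zero]
      have h3 : Y.π ((n : ℤ) - m + 2 * (m + 1 : ℕ)) ((Y.L ^ (m + 1)) y) = (Y.L ^ (m + 1)) y :=
        Y.corr_homog (Y.Lpow_corr _) rfl hy
      rcases lt_or_ge ((n : ℤ) - m) 0 with h4 | h4
      · rw [Y.homog_zero (Or.inl h4) hy, map_zero]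
      · exact Y.homog_zero (Or.inr (by push_cast; omega)) h3
    · obtain ⟨i, hi⟩ : ∃ i, n = m + 2 + i := ⟨n - m - 2, by omega⟩
      have hy' : Y.π ((i : ℤ) + 2) y = y := by
        rw [show (i : ℤ) + 2 = n - m by omega]; exact hy
      have h2 : Y.π (2 * n - i) ((Y.L ^ (m + 1)) y) = (Y.L ^ (m + 1)) y :=
        Y.corr_homog (Y.Lpow_corr _) (by push_cast; omega) hy'
      rw [lam_low i y (by omega) hy', ← Module.End.mul_apply (Y.L ^ (m + 1)), ← pow_succ,
        show m + 1 + 1 = n - i by omega, show n - 1 - i = m + 1 by omega, hκR i (by omega) _ h2,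
        sub_self]
  · intro m z hz hLz k hk
    rcases Nat.lt_or_ge n m with hnm | hmn
    · rw [Y.homog_zero (Or.inr (by omega)) hz]
      simp
    obtain ⟨i, hi⟩ : ∃ i, n = m + i := ⟨n - m, by omega⟩
    -- the bottom of the string
    have hz' : Y.π (2 * n - i) z = z := by rw [show 2 * (n : ℤ) - i = n + m by omega]; exact hz
    set x := κ i z with hx
    have hxi : Y.π i x = x := Y.corr_homog (hκ i (by omega)) (by omega) hz'
    have hxz : (Y.L ^ m) x = z := by
      have := hκR i (by omega) z hz'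
      rwa [show n - i = m by omega] at this
    have hx0 : (Y.L ^ (m + 1)) x = 0 := by
      rw [pow_succ', Module.End.mul_apply, hxz, hLz]
    have hxa : ∀ a : ℕ, Y.π ((i : ℤ) + 2 * a) ((Y.L ^ a) x) = (Y.L ^ a) x := fun a =>
      Y.corr_homog (Y.Lpow_corr a) rfl hxi
    have lam_x : Λ x = 0 := by
      rcases Nat.lt_or_ge i 2 with h2 | h2
      · exact lam_bot i x (by omega) (by omega) hxi
      · obtain ⟨l, rfl⟩ : ∃ l, i = l + 2 := ⟨i - 2, by omega⟩
        rw [lam_low l x (by omega) (by push_cast at hxi; exact hxi),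
          show n - 1 - l = m + 1 by omega, hx0, map_zero]
    have lam_a : ∀ a, a + 1 ≤ m → Λ ((Y.L ^ (a + 1)) x) = (Y.L ^ a) x := by
      intro a ha
      rcases Nat.lt_or_ge (2 * a) m with h2 | h2
      · rw [pow_succ', Module.End.mul_apply]
        exact hlow _ _ (by omega) (hxa a)
      · -- `L^(a+1) x` is in degree `2n - l`
        obtain ⟨l, hl⟩ : ∃ l, n + m = 2 * (a + 1) + l := ⟨n + m - 2 * (a + 1), by omega⟩
        have h3 : Y.π (2 * n - l) ((Y.L ^ (a + 1)) x) = (Y.L ^ (a + 1)) x := by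
          have := hxa (a + 1)
          rwa [show (i : ℤ) + 2 * (a + 1 : ℕ) = 2 * n - l by push_cast; omega] at this
        have h4 : Y.π l ((Y.L ^ (m - (a + 1))) x) = (Y.L ^ (m - (a + 1))) x := by
          have := hxa (m - (a + 1))
          rwa [show (i : ℤ) + 2 * (m - (a + 1) : ℕ) = l by omega] at this
        have h5 : (Y.L ^ (n - l)) ((Y.L ^ (m - (a + 1))) x) = (Y.L ^ (a + 1)) x := by
          rw [← Module.End.mul_apply, ← pow_add, show n - l + (m - (a + 1)) = a + 1 by omega]
        rw [lam_high l _ (by omega) h3, ← h5, hκL l (by omega) _ h4, ← Module.End.mul_apply,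
          ← pow_add, show n - 1 - l + (m - (a + 1)) = a by omega]
    have lam_k : ∀ k ≤ m, (Λ ^ k) z = (Y.L ^ (m - k)) x := by
      intro k
      induction k with
      | zero => intro _; rw [pow_zero, Module.End.one_apply, Nat.sub_zero, hxz]
      | succ k ih =>
        intro hk
        rw [pow_succ', Module.End.mul_apply, ih (by omega)]
        obtain ⟨a, ha⟩ : ∃ a, m - k = a + 1 := ⟨m - k - 1, by omega⟩
        rw [ha, lam_a a (by omega), show m - (k + 1) = a by omega]
    rcases Nat.lt_or_gt_of_ne hk with h2 | h2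
    · rw [lam_k k h2.le]
      obtain ⟨a, ha⟩ : ∃ a, m - k = a + 1 := ⟨m - k - 1, by omega⟩
      rw [ha, lam_a a (by omega), pow_succ', Module.End.mul_apply, sub_self]
    · have h3 : (Λ ^ k) z = 0 := by
        obtain ⟨t, rfl⟩ : ∃ t, k = t + 1 + m := ⟨k - m - 1, by omega⟩
        rw [pow_add, Module.End.mul_apply, lam_k m le_rfl, Nat.sub_self, pow_zero,
          Module.End.one_apply, pow_succ, Module.End.mul_apply, lam_x, map_zero]
      rw [h3]
      simp

end Pool.Agent.Helper47.PB
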