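import Pool.Agent.Helper47.PB.Statement
import Pool.Agent.Helper29.CPB.Graded

/-!
# The sign conjecture for ample divisors, complete intersections and cyclic covers
-/

set_option linter.unusedSectionVars false

namespace Pool.Agent.Helper47.PB

open Pool.Agent.Helper29.CPB

universe u v

variable {F : Type u} [Field F] [CharZero F]

section Hard

variable (X : Variety.{u, v} F)

/-- `L ^ s` is injective on `H^j` for `j + s ≤ dim X` -/
lemma L_inj {s : ℕ} {j : ℤ} (hj : j + s ≤ X.dim) {x : X.H} (hx : X.π j x = x)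
    (h : (X.L ^ s) x = 0) : x = 0 := by
  rcases lt_or_ge j 0 with h0 | h0
  · exact X.homog_zero (Or.inl h0) hx
  obtain ⟨i, rfl⟩ := Int.eq_ofNat_of_zero_le h0
  have hi : i + s ≤ X.dim := by exact_mod_cast hj
  apply X.hard_inj i (by omega) x hx
  obtain ⟨k, hk⟩ : ∃ k, X.dim - i = k + s := ⟨X.dim - i - s, by omega⟩
  rw [hk, pow_add, Module.End.mul_apply, h, map_zero]

/-- `L ^ s : H^j → H^(j+2s)` is surjective for `j + s ≥ dim X` -/
lemma L_surj {s : ℕ} {j : ℤ} (hj : (X.dim : ℤ) ≤ j + s) {y : X.H} (hy : X.π (j + 2 * s) y = y) :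
    ∃ x, X.π j x = x ∧ (X.L ^ s) x = y := by
  rcases lt_or_ge (2 * (X.dim : ℤ)) (j + 2 * s) with h0 | h0
  · refine ⟨0, map_zero _, ?_⟩
    rw [map_zero, X.homog_zero (Or.inr h0) hy]
  obtain ⟨i, hi⟩ := Int.eq_ofNat_of_zero_le (a := 2 * (X.dim : ℤ) - (j + 2 * s)) (by omega)
  have hid : i + s ≤ X.dim := by omega
  obtain ⟨x, hx, hxy⟩ := X.hard_surj i (by omega) y (by
    rw [show 2 * (X.dim : ℤ) - i = j + 2 * s by omega]; exact hy)
  obtain ⟨k, hk⟩ : ∃ k, X.dim - i = s + k := ⟨X.dim - i - s, by omega⟩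
  refine ⟨(X.L ^ k) x, ?_, ?_⟩
  · exact X.corr_homog (X.Lpow_corr k) (by omega) hx
  · rw [← Module.End.mul_apply, ← pow_add, ← hk, hxy]

end Hard

/-- the projector onto the part of the cohomology whose degrees have the parity of `n` -/
noncomputable def par (X : Variety.{u, v} F) (n : ℕ) : Module.End F X.H :=
  if Even n then ∑ i ∈ (Finset.Icc (0 : ℤ) (2 * X.dim)).filter Even, X.π i
  else 1 - ∑ i ∈ (Finset.Icc (0 : ℤ) (2 * X.dim)).filter Even, X.π i

lemma par_apply {X : Variety.{u, v} F} (n : ℕ) {j : ℤ} {x : X.H} (hx : X.π j x = x) :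
    par X n x = if Even (j + n) then x else 0 := by
  unfold par
  split_ifs with h1 h2 h2
  · rw [X.evenPart_apply hx, if_pos]
    rw [Int.even_add] at h2
    exact h2.mpr (by exact_mod_cast h1)
  · rw [X.evenPart_apply hx, if_neg]
    intro h3
    exact h2 (h3.add (by exact_mod_cast h1))
  · rw [LinearMap.sub_apply, Module.End.one_apply, X.evenPart_apply hx, if_neg, sub_zero]
    intro h3
    rw [Int.even_add] at h2
    exact h1 (by exact_mod_cast h2.mp h3)
  · rw [LinearMap.sub_apply, Module.End.one_apply, X.evenPart_apply hx, if_pos, sub_self]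
    by_contra h3
    apply h2
    rw [Int.even_add]
    exact ⟨fun h => absurd h h3, fun h => absurd (by exact_mod_cast h) h1⟩

lemma par_alg {X : Variety.{u, v} F} (h : X.CPlus) (n : ℕ) : par X n ∈ X.corr 0 := by
  unfold par
  split_ifs
  · exact h
  · exact (X.corr 0).sub_mem X.corr_one h

lemma cplus_of_par {X : Variety.{u, v} F} {n : ℕ} (h : par X n ∈ X.corr 0) : X.CPlus := by
  unfold par at h
  split_ifs at h
  · exact h
  · have h1 := (X.corr 0).sub_mem X.corr_one h
    rw [sub_sub_cancel] at h1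
    exact h1

section Section

variable {T S : Variety.{u, v} F} {s : ℕ} (D : LefschetzMap T S s)

namespace LefschetzMap

lemma NF_ne : (D.N : F) ≠ 0 := by exact_mod_cast D.pos.ne'

lemma up_homog {j : ℤ} {x : T.H} (hx : T.π j x = x) : S.π j (D.up x) = D.up x := by
  rw [← D.up_deg, hx]

lemma dn_homog {j : ℤ} {y : S.H} (hy : S.π j y = y) :
    T.π (j + 2 * s) (D.dn y) = D.dn y := by
  have h := D.dn_deg j y
  rw [hy] at h
  exact h.symm

include D in
/-- A quasi-inverse of `L ^ s` on `T` gives the sign conjecture for `S`. -/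
theorem cplus (hT : T.CPlus) (h : QuasiInverse T (T.L ^ s) s (S.dim + 1)) : S.CPlus := by
  obtain ⟨γ, hγ, h⟩ := h
  have hm := D.NF_ne
  have hd : (S.dim : ℤ) + s = T.dim := by exact_mod_cast D.dim
  have hγp : γ * par T (S.dim + 1) ∈ T.corr (-s) := T.corr_mul' (by ring) hγ (par_alg hT _)
  obtain ⟨f, hf, hfy⟩ := D.restrict _ hγp
  have hfm : ((D.N : F)⁻¹) • f ∈ S.corr 0 := by
    have h1 := S.corr_smul ((D.N : ℚ)⁻¹) 0 f hf
    push_cast at h1
    exact h1
  apply cplus_of_par (n := S.dim + 1)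
  have key : par S (S.dim + 1) = ((D.N : F)⁻¹) • f := by
    apply S.ext_homog
    intro j y hy
    have hw : T.π (j + 2 * s) (D.dn y) = D.dn y := D.dn_homog hy
    rw [par_apply _ hy, LinearMap.smul_apply, hfy, Module.End.mul_apply, par_apply _ hw]
    have hev : Even (j + 2 * s + ((S.dim + 1 : ℕ) : ℤ)) ↔ Even (j + ((S.dim + 1 : ℕ) : ℤ)) := by
      rw [show j + 2 * s + ((S.dim + 1 : ℕ) : ℤ) = (j + ((S.dim + 1 : ℕ) : ℤ)) + 2 * s by ring,
        Int.even_add, iff_true_right (even_two_mul _)]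
    by_cases he : Even (j + ((S.dim + 1 : ℕ) : ℤ))
    · rw [if_pos he, if_pos (hev.mpr he)]
      have hne : j ≠ S.dim := by
        rintro rfl
        rw [show (S.dim : ℤ) + ((S.dim + 1 : ℕ) : ℤ) = 2 * S.dim + 1 by push_cast; ring] at he
        exact (Int.not_even_iff_odd.mpr ⟨(S.dim : ℤ), rfl⟩) he
      have hγd : ∀ {w : T.H}, T.π (j + 2 * s) w = w → T.π j (γ w) = γ w := fun {w} hw =>
        T.corr_homog (show γ ∈ T.corr (-s) from hγ) (by ring) hw
      rcases lt_or_gt_of_ne hne with hlt | hgt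
      · obtain ⟨x0, hx0⟩ := D.onto j hlt y hy
        set x := T.π j x0 with hx
        have hxj : T.π j x = x := T.π_apply_idem _ _
        have hxy : D.up x = y := by rw [hx, D.up_deg, hx0, hy]
        rw [← hxy, D.dn_up, map_smul, map_smul, smul_smul, inv_mul_cancel₀ hm, one_smul]
        have h3 : (T.L ^ s) (γ ((T.L ^ s) x) - x) = 0 := by rw [map_sub, h j x he hxj, sub_self]
        have hLx : T.π (j + 2 * s) ((T.L ^ s) x) = (T.L ^ s) x :=
          T.corr_homog (T.Lpow_corr s) (by ring) hxj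
        have h4 : γ ((T.L ^ s) x) - x = 0 := by
          apply L_inj T (s := s) (j := j) (by omega) _ h3
          rw [map_sub, hγd hLx, hxj]
        rw [sub_eq_zero.mp h4]
      · apply sub_eq_zero.mp
        obtain ⟨x, hxj, hx⟩ := L_surj T (s := s) (j := j) (by omega) hw
        have h5 : D.up (γ (D.dn y)) ∈ {z | S.π j z = z} := D.up_homog (hγd hw)
        apply D.mono j hgt
        · rw [map_sub, map_smul, hy]
          congr 2
        · rw [map_sub, map_smul, D.dn_up, smul_smul, inv_mul_cancel₀ hm, one_smul, ← hx,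
            h j x he hxj, sub_self]
    · rw [if_neg he, if_neg (fun h => he (hev.mp h)), map_zero, map_zero, smul_zero]
  rw [key]
  exact hfm

end LefschetzMap

/-- the generic complete intersection of members of `|mL|` -/
def ofGeneric (G : GenericSection T S s) : LefschetzMap T S s where
  dim := G.dim
  up := G.up
  dn := G.dn
  N := G.m ^ s
  pos := pow_pos G.m_pos s
  up_deg := G.maps.up_deg
  dn_deg := G.maps.dn_deg
  dn_up := fun x => by push_cast; exact G.maps.dn_up x
  onto := G.weak.onto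
  mono := G.weak.mono
  restrict := G.incidence.restrict

/-- `C⁺` for a generic complete intersection gives a quasi-inverse of `L ^ s`. -/
theorem quasiInverse_of_generic (G : GenericSection T S s) (h : S.CPlus) :
    QuasiInverse T (T.L ^ s) s (S.dim + 1) := by
  have hp : par S (S.dim + 1) ∈ S.corr 0 := par_alg h _
  obtain ⟨γ, hγ, q, hq⟩ := G.generic _ hp
  have hmul : ∀ y, par S (S.dim + 1) y = G.up (γ (G.dn y)) + (q : F) • y := by
    intro y
    rw [hq]; rfl
  have hodd : ¬ Even ((S.dim : ℤ) + ((S.dim + 1 : ℕ) : ℤ)) := by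
    rw [Int.not_even_iff_odd]
    exact ⟨(S.dim : ℤ), by push_cast; ring⟩
  have hq0 : (q : F) = 0 := by
    obtain ⟨e, he0, he, hde⟩ := G.vanishing
    have h1 := hmul e
    rw [par_apply _ he, if_neg hodd, hde, map_zero, map_zero, zero_add] at h1
    exact (smul_eq_zero.mp h1.symm).resolve_right he0
  have hm : (G.m : F) ^ s ≠ 0 := pow_ne_zero _ (by exact_mod_cast G.m_pos.ne')
  have hdu : ∀ x, G.dn (G.up x) = ((G.m : F) ^ s) • (T.L ^ s) x := G.maps.dn_up
  refine ⟨((G.m : F) ^ s) • γ, ?_, ?_⟩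
  · have h1 := T.corr_smul ((G.m : ℚ) ^ s) _ γ hγ
    push_cast at h1
    exact h1
  · intro j x hj hx
    have hux : S.π j (G.up x) = G.up x := (ofGeneric G).up_homog hx
    have h1 := hmul (G.up x)
    rw [par_apply _ hux, if_pos hj, hq0, zero_smul, add_zero, hdu, map_smul, map_smul] at h1
    have h2 := congrArg G.dn h1
    rw [map_smul, hdu, hdu, smul_smul] at h2
    rw [LinearMap.smul_apply, map_smul]
    have h3 : ((G.m : F) ^ s) • (((G.m : F) ^ s) • (T.L ^ s) (γ ((T.L ^ s) x)) - (T.L ^ s) x) =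
        0 := by
      rw [smul_sub, smul_smul, ← h2, sub_self]
    exact sub_eq_zero.mp ((smul_eq_zero.mp h3).resolve_left hm)

end Section

end Pool.Agent.Helper47.PB
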