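import Pool.Agent.Helper47.PB.Main
import Pool.Agent.Helper47.PB.Lam

/-!
# Quasi-inverses on products
-/

set_option linter.unusedSectionVars false

namespace Pool.Agent.Helper47.PB

open Pool.Agent.Helper29.CPB TensorProduct

universe u v

section Ring

variable {R : Type*} [Ring R] {X Y D : R}

lemma ring_one (hXY : Commute X Y) (N : ℕ) :
    (X + Y) * ∑ k ∈ Finset.range (N + 1), (-X) ^ k * D ^ (k + 1) =
      1 - (-X) ^ (N + 1) * D ^ (N + 1) -
        ∑ k ∈ Finset.range (N + 1), (-X) ^ k * (1 - Y * D) * D ^ k := by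
  induction N with
  | zero =>
    simp only [zero_add, Finset.sum_range_one, pow_zero, pow_one, one_mul, mul_one]
    noncomm_ring
  | succ N ih =>
    have hc : Y * (-X) ^ (N + 1) = (-X) ^ (N + 1) * Y := (hXY.neg_left.pow_left (N + 1)).eq.symm
    rw [Finset.sum_range_succ, mul_add, ih, Finset.sum_range_succ _ (N + 1)]
    have h1 : (X + Y) * ((-X) ^ (N + 1) * D ^ (N + 1 + 1)) =
        -((-X) ^ (N + 1 + 1) * D ^ (N + 1 + 1)) + (-X) ^ (N + 1) * (Y * D) * D ^ (N + 1) := by
      rw [add_mul, ← mul_assoc Y, hc, pow_succ' (-X) (N + 1), pow_succ' D (N + 1)]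
      noncomm_ring
    rw [h1]
    noncomm_ring

lemma ring_two (hXY : Commute X Y) (hXD : Commute X D) (hY : Y * D * Y = Y) (N : ℕ) :
    (∑ k ∈ Finset.range (N + 1), (-X) ^ k * (1 - Y * D) * D ^ k) * (X + Y) =
      -((-X) ^ (N + 1) * (1 - Y * D) * D ^ N) -
        ∑ k ∈ Finset.range N, (-X) ^ (k + 1) * (1 - Y * D) * D ^ k * (1 - D * Y) := by
  have hcX : ∀ k, (1 - Y * D) * D ^ k * X = X * ((1 - Y * D) * D ^ k) := by
    intro k
    have h1 : Commute X ((1 - Y * D) * D ^ k) :=
      (((Commute.one_right X).sub_right (hXY.mul_right hXD))).mul_right (hXD.pow_right k)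
    exact h1.eq.symm
  induction N with
  | zero =>
    simp only [zero_add, Finset.sum_range_one, pow_zero, pow_one, one_mul, mul_one,
      Finset.sum_range_zero, sub_zero]
    have h1 := hcX 0
    simp only [pow_zero, mul_one] at h1
    rw [mul_add, h1, sub_mul 1 (Y * D) Y, hY, one_mul, sub_self, add_zero]
    noncomm_ring
  | succ N ih =>
    rw [Finset.sum_range_succ, add_mul, ih, Finset.sum_range_succ _ N]
    have h1 : (-X) ^ (N + 1) * (1 - Y * D) * D ^ (N + 1) * (X + Y) =
        -((-X) ^ (N + 1 + 1) * (1 - Y * D) * D ^ (N + 1)) +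
          (-X) ^ (N + 1) * (1 - Y * D) * D ^ N * (D * Y) := by
      have h2 : (-X) ^ (N + 1) * (1 - Y * D) * D ^ (N + 1) * X =
          -((-X) ^ (N + 1 + 1) * (1 - Y * D) * D ^ (N + 1)) := by
        have h3 : (-X) ^ (N + 1) * (1 - Y * D) * D ^ (N + 1) * X =
            (-X) ^ (N + 1) * ((1 - Y * D) * D ^ (N + 1) * X) := by noncomm_ring
        rw [h3, hcX, pow_succ (-X) (N + 1)]
        noncomm_ring
      rw [mul_add, h2, pow_succ D N]
      noncomm_ring
    rw [h1]
    noncomm_ring

end Ring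

section ptr

variable {F : Type u} [Field F] {V W : Type v} [AddCommGroup V] [Module F V]
  [FiniteDimensional F V] [AddCommGroup W] [Module F W] [FiniteDimensional F W]

/-- Contraction (partial trace) of the second factor: `f ⊗ g ↦ tr(g) f`. -/
noncomputable def ptr (γ : Module.End F (V ⊗[F] W)) : Module.End F V :=
  TensorProduct.rid F (Module.End F V) (LinearMap.lTensor (Module.End F V)
    (LinearMap.trace F W) ((homTensorHomEquiv F V W V W).symm γ))

lemma trace_ptr_mul (γ : Module.End F (V ⊗[F] W)) (v : Module.End F V) :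
    LinearMap.trace F V (ptr γ * v) =
      LinearMap.trace F (V ⊗[F] W) (γ * TensorProduct.map v 1) := by
  obtain ⟨t, rfl⟩ := (homTensorHomEquiv F V W V W).surjective γ
  unfold ptr
  rw [LinearEquiv.symm_apply_apply]
  induction t using TensorProduct.induction_on with
  | zero => simp
  | tmul f g =>
    have e : (homTensorHomEquiv F V W V W) (f ⊗ₜ[F] g) =
        (TensorProduct.map f g : Module.End F (V ⊗[F] W)) := by
      simp [homTensorHomEquiv_apply]
    rw [e, ← TensorProduct.map_mul, mul_one, LinearMap.trace_tensorProduct']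
    simp [mul_comm]
  | add a b ha hb =>
    simp only [map_add, add_mul] at ha hb ⊢
    rw [ha, hb]

lemma ptr_map (f : Module.End F V) (g : Module.End F W) :
    ptr (TensorProduct.map f g) = LinearMap.trace F W g • f := by
  apply eq_of_trace_mul
  intro v
  rw [trace_ptr_mul, ← TensorProduct.map_mul, mul_one, LinearMap.trace_tensorProduct',
    smul_mul_assoc, map_smul, smul_eq_mul, mul_comm]

lemma ptr_mul (f g : Module.End F V) (γ : Module.End F (V ⊗[F] W)) :
    ptr (TensorProduct.map f 1 * γ * TensorProduct.map g 1) = f * ptr γ * g := by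
  apply eq_of_trace_mul
  intro v
  rw [trace_ptr_mul]
  have h1 : TensorProduct.map f 1 * γ * TensorProduct.map g 1 * TensorProduct.map v 1 =
      TensorProduct.map f 1 * (γ * TensorProduct.map (g * v) (1 : Module.End F W)) := by
    rw [mul_assoc, ← TensorProduct.map_mul, one_mul, mul_assoc]
  have h2 : γ * TensorProduct.map (g * v) (1 : Module.End F W) * TensorProduct.map f 1 =
      γ * TensorProduct.map (g * v * f) 1 := by
    rw [mul_assoc, ← TensorProduct.map_mul, one_mul]
  rw [h1, LinearMap.trace_mul_comm, h2, ← trace_ptr_mul, mul_assoc f, mul_assoc f,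
    LinearMap.trace_mul_comm F f]
  simp only [mul_assoc]

end ptr

variable {F : Type u} [Field F] [CharZero F]

/-- `Product` in terms of an isomorphism `τ : H(Z) ⊗ H(Y) ≃ H(T)` -/
structure IsProd (Z Y T : Variety.{u, v} F) (τ : (Z.H ⊗[F] Y.H) ≃ₗ[F] T.H) : Prop where
  dim : T.dim = Z.dim + Y.dim
  grade : ∀ (i j : ℤ) (x : Z.H) (y : Y.H), Z.π i x = x → Y.π j y = y →
    T.π (i + j) (τ (x ⊗ₜ y)) = τ (x ⊗ₜ y)
  polar : T.L = τ.conj (TensorProduct.map Z.L 1 + TensorProduct.map 1 Y.L)
  prod : ∀ (r s t : ℤ) (f : Module.End F Z.H) (g : Module.End F Y.H), f ∈ Z.corr r →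
    g ∈ Y.corr s → t = r + s → τ.conj (TensorProduct.map f g) ∈ T.corr t
  contr : ∀ (r : ℤ) (γ : Module.End F (Z.H ⊗[F] Y.H)), τ.conj γ ∈ T.corr r →
    ptr (γ * TensorProduct.map 1 Y.sgn) ∈ Z.corr r

lemma Product.isProd {Z Y T : Variety.{u, v} F} {μ : Z.H → Y.H → T.H} (h : Product Z Y T μ) :
    ∃ τ, IsProd Z Y T τ := by
  obtain ⟨τ, hτ⟩ : ∃ τ : (Z.H ⊗[F] Y.H) ≃ₗ[F] T.H, ∀ x y, τ (x ⊗ₜ y) = μ x y := by
    obtain ⟨B, hB, hBμ⟩ := h.tensor
    refine ⟨hB.equiv, ?_⟩
    intro x y
    rw [IsTensorProduct.equiv_apply, TensorProduct.lift.tmul, hBμ]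
  have hunique : ∀ (k : Module.End F T.H) (f : Module.End F (Z.H ⊗[F] Y.H)),
      (∀ x y, k (μ x y) = τ (f (x ⊗ₜ y))) → k = τ.conj f := by
    intro k f hk
    apply LinearMap.ext
    intro z
    obtain ⟨t, rfl⟩ := τ.surjective z
    rw [LinearEquiv.conj_apply_apply, LinearEquiv.symm_apply_apply]
    induction t using TensorProduct.induction_on with
    | zero => simp
    | tmul x y => rw [hτ, hk x y]
    | add a b ha hb => rw [map_add, map_add, map_add, map_add, ha, hb]
  refine ⟨τ, h.dim, ?_, ?_, ?_, ?_⟩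
  · intro i j x y hx hy
    rw [hτ]
    exact h.grade i j x y hx hy
  · apply hunique
    intro x y
    rw [LinearMap.add_apply, TensorProduct.map_tmul, TensorProduct.map_tmul, map_add, hτ, hτ,
      h.polar]
    rfl
  · intro r s t f g hf hg ht
    subst ht
    obtain ⟨k, hk, hk2⟩ := h.prod r s f g hf hg
    rw [← hunique k (TensorProduct.map f g) (fun x y => by
      rw [hk2, TensorProduct.map_tmul, hτ])]
    exact hk
  · intro r γ hγ
    obtain ⟨θ, hθ, hθ2⟩ := h.contr r (τ.conj γ) hγ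
    have : ptr (γ * TensorProduct.map 1 Y.sgn) = θ := by
      apply eq_of_trace_mul
      intro v
      have h1 := hθ2 v (τ.conj (TensorProduct.map v Y.sgn)) (fun x y => by
        rw [← hτ, LinearEquiv.conj_apply_apply, LinearEquiv.symm_apply_apply,
          TensorProduct.map_tmul, hτ]
        rfl)
      have h2 : LinearMap.trace F T.H (τ.conj γ * τ.conj (TensorProduct.map v Y.sgn)) =
          LinearMap.trace F (Z.H ⊗[F] Y.H) (γ * TensorProduct.map v Y.sgn) := by
        rw [← LinearMap.trace_conj' _ τ]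
        congr 1
        exact (LinearEquiv.conj_comp τ _ _).symm
      have h3 : (TensorProduct.map 1 Y.sgn : Module.End F (Z.H ⊗[F] Y.H)) *
          TensorProduct.map v 1 = TensorProduct.map v Y.sgn := by
        rw [← TensorProduct.map_mul, one_mul, mul_one]
      rw [trace_ptr_mul, mul_assoc, h3]
      exact (h1.trans h2).symm
    rw [this]
    exact hθ

namespace IsProd

variable {Z Y T : Variety.{u, v} F} {τ : (Z.H ⊗[F] Y.H) ≃ₗ[F] T.H}

/-- operators of the tensor product which are algebraic of degree `r` -/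
def corr (_ : IsProd Z Y T τ) (r : ℤ) : AddSubgroup (Module.End F (Z.H ⊗[F] Y.H)) :=
  (T.corr r).comap τ.conj.toLinearMap.toAddMonoidHom

variable (hP : IsProd Z Y T τ)

lemma mem_corr {r : ℤ} {f : Module.End F (Z.H ⊗[F] Y.H)} :
    f ∈ hP.corr r ↔ τ.conj f ∈ T.corr r := Iff.rfl

lemma corr_map {r s t : ℤ} {f : Module.End F Z.H} {g : Module.End F Y.H} (hf : f ∈ Z.corr r)
    (hg : g ∈ Y.corr s) (ht : t = r + s) : TensorProduct.map f g ∈ hP.corr t :=
  hP.prod r s t f g hf hg ht

lemma corr_mul {r s t : ℤ} {f g : Module.End F (Z.H ⊗[F] Y.H)} (hf : f ∈ hP.corr r)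
    (hg : g ∈ hP.corr s) (ht : t = r + s) : f * g ∈ hP.corr t := by
  rw [mem_corr] at *
  have h1 : τ.conj (f * g) = τ.conj f * τ.conj g := LinearEquiv.conj_comp τ g f
  rw [h1]
  exact T.corr_mul' ht hf hg

lemma corr_sum {ι : Type*} {r : ℤ} (t : Finset ι) (f : ι → Module.End F (Z.H ⊗[F] Y.H))
    (h : ∀ a ∈ t, f a ∈ hP.corr r) : ∑ a ∈ t, f a ∈ hP.corr r :=
  (hP.corr r).sum_mem h

lemma corr_neg_pow {r : ℤ} {f : Module.End F (Z.H ⊗[F] Y.H)} (hf : f ∈ hP.corr r) (k : ℕ) :
    (-f) ^ k ∈ hP.corr (k * r) := by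
  induction k with
  | zero =>
    rw [pow_zero, mem_corr]
    have h1 : τ.conj (1 : Module.End F (Z.H ⊗[F] Y.H)) = 1 := LinearEquiv.conj_id τ
    rw [h1]
    simpa using T.corr_one
  | succ k ih =>
    rw [pow_succ]
    exact hP.corr_mul ih ((hP.corr r).neg_mem hf) (by push_cast; ring)

/-- two operators on `H(T)` are equal if they agree on products of homogeneous classes -/
lemma ext_tensor {f g : Module.End F T.H} (h : ∀ (p q : ℤ) (a : Z.H) (y : Y.H), Z.π p a = a →
    Y.π q y = y → f (τ (a ⊗ₜ y)) = g (τ (a ⊗ₜ y))) : f = g := by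
  apply LinearMap.ext
  intro b
  obtain ⟨t, rfl⟩ := τ.surjective b
  induction t using TensorProduct.induction_on with
  | zero => simp
  | tmul a y =>
    have ha : a = ∑ p ∈ Finset.Icc (0 : ℤ) (2 * Z.dim), Z.π p a := by
      rw [← LinearMap.sum_apply, Z.π_sum]; rfl
    have hy : y = ∑ q ∈ Finset.Icc (0 : ℤ) (2 * Y.dim), Y.π q y := by
      rw [← LinearMap.sum_apply, Y.π_sum]; rfl
    rw [ha, hy, TensorProduct.sum_tmul, map_sum, map_sum, map_sum]
    refine Finset.sum_congr rfl fun p _ => ?_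
    rw [TensorProduct.tmul_sum, map_sum, map_sum, map_sum]
    refine Finset.sum_congr rfl fun q _ => ?_
    exact h p q _ _ (Z.π_apply_idem p a) (Y.π_apply_idem q y)
  | add a b ha hb => rw [map_add, map_add, map_add, ha, hb]

include hP in
/-- `C⁺(Z)` and `C⁺(Y)` imply `C⁺(T)` -/
theorem cplus (hZ : Z.CPlus) (hY : Y.CPlus) : T.CPlus := by
  have h1 : τ.conj (TensorProduct.map (par Z 0) (par Y 0) +
      TensorProduct.map (par Z 1) (par Y 1)) = par T 0 := by
    apply ext_tensor (Z := Z) (Y := Y) (τ := τ)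
    intro p q a y ha hy
    have hay := hP.grade p q a y ha hy
    rw [par_apply 0 hay, LinearEquiv.conj_apply_apply, LinearEquiv.symm_apply_apply,
      LinearMap.add_apply, TensorProduct.map_tmul, TensorProduct.map_tmul, par_apply 0 ha,
      par_apply 0 hy, par_apply 1 ha, par_apply 1 hy]
    simp only [Nat.cast_zero, add_zero, Nat.cast_one, Int.even_add_one]
    by_cases hp : Even p <;> by_cases hq : Even q
    · rw [if_pos hp, if_pos hq, if_neg (not_not.mpr hp), zero_tmul, add_zero,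
        if_pos (hp.add hq)]
    · rw [if_pos hp, if_neg hq, if_neg (not_not.mpr hp), zero_tmul, tmul_zero, add_zero, map_zero,
        if_neg (fun h => hq ((Int.even_add.mp h).mp hp))]
    · rw [if_neg hp, if_pos hq, if_pos hp, if_neg (not_not.mpr hq), zero_tmul, tmul_zero, add_zero,
        map_zero, if_neg (fun h => hp ((Int.even_add.mp h).mpr hq))]
    · rw [if_neg hp, zero_tmul, zero_add, if_pos hp, if_pos hq,
        if_pos (Int.even_add.mpr (iff_of_false hp hq))]
  apply cplus_of_par (n := 0)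
  rw [← h1]
  exact (hP.corr 0).add_mem (hP.corr_map (par_alg hZ 0) (par_alg hY 0) (by ring))
    (hP.corr_map (par_alg hZ 1) (par_alg hY 1) (by ring))

include hP in
/-- **Quasi-inverses on products.** -/
theorem quasiInverse (hB : Y.Lefschetz)
    (hq : ∀ m ≤ Y.dim, HasPrimitive Y m → QuasiInverse Z (Z.L ^ (m + 1)) (m + 1) (Z.dim + m)) :
    QuasiInverse T (T.L ^ 1) 1 T.dim := by
  obtain ⟨Λ, hΛ⟩ := exists_lambda Y hB
  have hK : ∀ i, Y.π i ∈ Y.corr 0 := kunneth_of_lefschetz Y hB
  set n := Y.dim with hn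
  -- `L Λ L = L`
  have hLL : Y.L * Λ * Y.L = Y.L := by
    apply Y.ext_homog
    intro j y hy
    simp only [Module.End.mul_apply]
    rcases lt_or_ge j n with hj | hj
    · rw [hΛ.low j y hj hy]
    · exact hΛ.high (j + 2) (Y.L y) (by omega) (Y.corr_homog Y.L_corr (by ring) hy)
  -- the quasi-inverses on `Z`
  have hθ : ∀ m, ∃ θ ∈ Z.corr (-(m + 1 : ℕ)), (m ≤ n → HasPrimitive Y m → ∀ (j : ℤ) (x : Z.H),
      Even (j + (Z.dim + m : ℕ)) → Z.π j x = x →
        (Z.L ^ (m + 1)) (θ ((Z.L ^ (m + 1)) x)) = (Z.L ^ (m + 1)) x) := by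
    intro m
    by_cases h : m ≤ n ∧ HasPrimitive Y m
    · obtain ⟨θ, h1, h2⟩ := hq m h.1 h.2
      exact ⟨θ, h1, fun _ _ => h2⟩
    · exact ⟨0, (Z.corr _).zero_mem, fun h1 h2 => absurd ⟨h1, h2⟩ h⟩
  choose θ hθc hθq using hθ
  set N := Z.dim + n + 1 with hN
  -- operators on the tensor product
  set X : Module.End F (Z.H ⊗[F] Y.H) := TensorProduct.map Z.L 1 with hX
  set V : Module.End F (Z.H ⊗[F] Y.H) := TensorProduct.map 1 Y.L with hV
  set D : Module.End F (Z.H ⊗[F] Y.H) := TensorProduct.map 1 Λ with hD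
  have hXV : Commute X V := by
    show X * V = V * X
    rw [hX, hV, ← TensorProduct.map_mul, ← TensorProduct.map_mul, one_mul, one_mul, mul_one,
      mul_one]
  have hXD : Commute X D := by
    show X * D = D * X
    rw [hX, hD, ← TensorProduct.map_mul, ← TensorProduct.map_mul, one_mul, one_mul, mul_one,
      mul_one]
  have hVDV : V * D * V = V := by
    rw [hV, hD, ← TensorProduct.map_mul, ← TensorProduct.map_mul, one_mul, one_mul, hLL]
  have hXp : ∀ k, X ^ k = TensorProduct.map (Z.L ^ k) 1 := by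
    intro k
    rw [hX, TensorProduct.map_pow, one_pow]
  have hXN : X ^ (N + 1) = 0 := by
    rw [hXp]
    have h1 : Z.L ^ (N + 1) = 0 := by
      apply Z.ext_homog
      intro j x hx
      rw [LinearMap.zero_apply]
      rcases lt_or_ge j 0 with h0 | h0
      · rw [Z.homog_zero (Or.inl h0) hx, map_zero]
      · exact Z.homog_zero (Or.inr (by push_cast; omega)) (Z.corr_homog (Z.Lpow_corr (N + 1)) rfl hx)
    rw [h1]
    ext a y
    simp
  have hXcorr : X ∈ hP.corr 1 := hP.corr_map Z.L_corr Y.corr_one (by ring)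
  have hVcorr : V ∈ hP.corr 1 := hP.corr_map Z.corr_one Y.L_corr (by ring)
  have hDcorr : ∀ k : ℕ, D ^ k ∈ hP.corr (-k) := by
    intro k
    rw [hD, TensorProduct.map_pow, one_pow]
    exact hP.corr_map Z.corr_one (Y.corr_pow hΛ.corr k) (by ring)
  -- the projector to the primitive part in degree `n - m`
  set A : ℕ → Module.End F Y.H := fun m => (1 - Y.L * Λ) * Y.π (n - m) with hA
  have hAc : ∀ m, A m ∈ Y.corr 0 := fun m =>
    Y.corr_mul' (by ring) ((Y.corr 0).sub_mem Y.corr_one
      (Y.corr_mul' (by ring) Y.L_corr hΛ.corr)) (hK _)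
  set G := ∑ k ∈ Finset.range (N + 1), (-X) ^ k * D ^ (k + 1) with hG
  set E := ∑ k ∈ Finset.range (N + 1), (-X) ^ k * (1 - V * D) * D ^ k with hE
  set Q : ℕ → Module.End F (Z.H ⊗[F] Y.H) := fun m =>
    ∑ i ∈ Finset.range (m + 1), X ^ i * (-V) ^ (m + 1 - 1 - i) with hQ
  set M : ℕ → Module.End F (Z.H ⊗[F] Y.H) := fun m => TensorProduct.map (θ m) (A m) with hM
  have hone : (1 : Module.End F (Z.H ⊗[F] Y.H)) ∈ hP.corr 0 := by
    have := hP.corr_map Z.corr_one Y.corr_one (t := 0) (by ring)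
    rwa [TensorProduct.map_one] at this
  have hVD : V * D ∈ hP.corr 0 := by
    have := hDcorr 1
    rw [pow_one] at this
    exact hP.corr_mul hVcorr this (by norm_num)
  have hGc : G ∈ hP.corr (-1) := hP.corr_sum _ _ fun k _ =>
    hP.corr_mul (hP.corr_neg_pow hXcorr k) (hDcorr (k + 1)) (by push_cast; ring)
  have hEc : E ∈ hP.corr 0 := hP.corr_sum _ _ fun k _ =>
    hP.corr_mul (hP.corr_mul (hP.corr_neg_pow hXcorr k) ((hP.corr 0).sub_mem hone hVD)
      (t := k) (by ring)) (hDcorr k) (by ring)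
  have hQc : ∀ m : ℕ, Q m ∈ hP.corr m := by
    intro m
    refine hP.corr_sum _ _ fun i hi => ?_
    have hi' := Finset.mem_range.mp hi
    have hXi : X ^ i ∈ hP.corr i := by
      rw [hXp]
      exact hP.corr_map (Z.Lpow_corr i) Y.corr_one (by ring)
    refine hP.corr_mul hXi (hP.corr_neg_pow hVcorr _) ?_
    have : ((m + 1 - 1 - i : ℕ) : ℤ) = m - i := by omega
    rw [this]; ring
  have hMc : ∀ m : ℕ, M m ∈ hP.corr (-(m + 1 : ℕ)) := fun m =>
    hP.corr_map (hθc m) (hAc m) (by ring)
  set Θ := G + ∑ m ∈ Finset.range (n + 1), Q m * M m * E with hΘ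
  have hΘc : Θ ∈ hP.corr (-1) := by
    refine (hP.corr (-1)).add_mem hGc (hP.corr_sum _ _ fun m _ => ?_)
    exact hP.corr_mul (hP.corr_mul (hQc m) (hMc m) (t := -1) (by push_cast; ring)) hEc (by ring)
  have hXN' : (-X) ^ (N + 1) = 0 :=
    (neg_pow X (N + 1)).trans (by rw [hXN, mul_zero])
  have e1 : (X + V) * G = 1 - E := by
    have := ring_one (D := D) hXV N
    rw [hXN', zero_mul, sub_zero] at this
    exact this
  have e2 : E * (X + V) = -∑ k ∈ Finset.range N, (-X) ^ (k + 1) * (1 - V * D) * D ^ k *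
      (1 - D * V) := by
    have := ring_two hXV hXD hVDV N
    rw [hXN', zero_mul, zero_mul, neg_zero, zero_sub] at this
    exact this
  have e3 : ∀ m, (X + V) * Q m = X ^ (m + 1) - (-V) ^ (m + 1) := by
    intro m
    have := (hXV.neg_right).mul_geom_sum₂ (m + 1)
    rw [sub_neg_eq_add] at this
    exact this
  -- the main computation
  have main : ∀ (p q : ℤ) (a : Z.H) (y : Y.H), Z.π p a = a → Y.π q y = y →
      Even (p + q + (Z.dim + n : ℕ)) →
      ((X + V) * Θ * (X + V)) (a ⊗ₜ y) = (X + V) (a ⊗ₜ y) := by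
    intro p q a y ha hy hpq
    set v := E ((X + V) (a ⊗ₜ y)) with hv
    have e4 : (X + V) * Θ = 1 - E + ∑ m ∈ Finset.range (n + 1), (X + V) * Q m * M m * E := by
      rw [hΘ, mul_add, e1, Finset.mul_sum]
      simp only [mul_assoc]
    have hLHS : ((X + V) * Θ * (X + V)) (a ⊗ₜ y) = (X + V) (a ⊗ₜ y) - v +
        ∑ m ∈ Finset.range (n + 1), ((X + V) * Q m) (M m v) := by
      have e5 : (∑ m ∈ Finset.range (n + 1), (X + V) * Q m * M m * E) ((X + V) (a ⊗ₜ[F] y)) =
          ∑ m ∈ Finset.range (n + 1), ((X + V) * Q m) (M m v) := by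
        rw [LinearMap.sum_apply]
        rfl
      rw [e4, Module.End.mul_apply, LinearMap.add_apply, LinearMap.sub_apply,
        Module.End.one_apply, e5]
    rw [hLHS]
    suffices hsuff : ∑ m ∈ Finset.range (n + 1), ((X + V) * Q m) (M m v) = v by
      rw [hsuff, sub_add_cancel]
    -- the value of `v`
    set z := y - Λ (Y.L y) with hz
    have hneg : ∀ (W : Module.End F (Z.H ⊗[F] Y.H)) (k : ℕ) (w : Z.H ⊗[F] Y.H),
        ((-W) ^ k) w = ((-1 : F) ^ k) • (W ^ k) w := by
      intro W k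
      induction k with
      | zero => intro w; simp
      | succ k ih =>
        intro w
        rw [pow_succ', Module.End.mul_apply, ih, pow_succ' W, Module.End.mul_apply, map_smul,
          LinearMap.neg_apply, pow_succ', neg_one_mul, smul_neg, neg_smul]
    have hXa : ∀ (k : ℕ) (b : Z.H) (w : Y.H), (X ^ k) (b ⊗ₜ w) = ((Z.L ^ k) b) ⊗ₜ w := by
      intro k b w
      rw [hXp, TensorProduct.map_tmul]; rfl
    have hVa : ∀ (k : ℕ) (b : Z.H) (w : Y.H), (V ^ k) (b ⊗ₜ w) = b ⊗ₜ ((Y.L ^ k) w) := by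
      intro k b w
      rw [hV, TensorProduct.map_pow, one_pow, TensorProduct.map_tmul]; rfl
    have hDa : ∀ (k : ℕ) (b : Z.H) (w : Y.H), (D ^ k) (b ⊗ₜ w) = b ⊗ₜ ((Λ ^ k) w) := by
      intro k b w
      rw [hD, TensorProduct.map_pow, one_pow, TensorProduct.map_tmul]; rfl
    have hv2 : v = -∑ k ∈ Finset.range N, ((-1 : F) ^ (k + 1)) •
        (((Z.L ^ (k + 1)) a) ⊗ₜ[F] ((Λ ^ k) z - Y.L (Λ ((Λ ^ k) z)))) := by
      have h1 : v = (E * (X + V)) (a ⊗ₜ y) := rfl
      rw [h1, e2, LinearMap.neg_apply, LinearMap.sum_apply]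
      congr 1
      refine Finset.sum_congr rfl fun k _ => ?_
      have h2 : (1 - D * V) (a ⊗ₜ[F] y) = a ⊗ₜ z := by
        rw [LinearMap.sub_apply, Module.End.one_apply, Module.End.mul_apply, hz, tmul_sub]
        have h3 := hVa 1 a y
        have h4 := hDa 1 a (Y.L y)
        rw [pow_one, pow_one] at h3 h4
        rw [h3, h4]
      have h5 : ∀ w, (1 - V * D) (a ⊗ₜ[F] w) = a ⊗ₜ (w - Y.L (Λ w)) := by
        intro w
        rw [LinearMap.sub_apply, Module.End.one_apply, Module.End.mul_apply, tmul_sub]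
        have h3 := hDa 1 a w
        have h4 := hVa 1 a (Λ w)
        rw [pow_one, pow_one] at h3 h4
        rw [h3, h4]
      rw [Module.End.mul_apply, h2, Module.End.mul_apply, hDa, Module.End.mul_apply, h5, hneg, hXa]
    rcases lt_or_ge q n with hqn | hqn
    · -- below the middle `v = 0`
      have hz0 : z = 0 := by rw [hz, hΛ.low q y hqn hy, sub_self]
      have hv0 : v = 0 := by
        rw [hv2, hz0]
        simp
      rw [hv0]
      simp
    obtain ⟨m₀, hm₀⟩ : ∃ m₀ : ℕ, q = n + m₀ := ⟨(q - n).toNat, by omega⟩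
    subst hm₀
    rcases Nat.lt_or_ge n m₀ with hbig | hm₀n
    · have hy0 : y = 0 := Y.homog_zero (Or.inr (by omega)) hy
      have hv0 : v = 0 := by
        rw [hv, hy0, tmul_zero, map_zero, map_zero]
      rw [hv0]
      simp
    have hzd : Y.π (n + m₀) z = z := by
      rw [hz, map_sub, hy]
      congr 1
      exact Y.corr_homog hΛ.corr (by ring) (Y.corr_homog Y.L_corr rfl hy)
    have hLz : Y.L z = 0 := by
      have h1 := congrArg (fun f => f y) hLL
      simp only [Module.End.mul_apply] at h1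
      rw [hz, map_sub, h1, sub_self]
    set w := (Λ ^ m₀) z - Y.L (Λ ((Λ ^ m₀) z)) with hw
    set c : F := -((-1 : F) ^ (m₀ + 1)) with hc
    have hv3 : v = c • (((Z.L ^ (m₀ + 1)) a) ⊗ₜ[F] w) := by
      rw [hv2, Finset.sum_eq_single m₀, hc, neg_smul]
      · intro k _ hk
        rw [hΛ.str m₀ z hzd hLz k hk, tmul_zero, smul_zero]
      · intro h
        exact absurd (Finset.mem_range.mpr (by omega)) h
    have hud : Y.π (n - m₀) ((Λ ^ m₀) z) = (Λ ^ m₀) z :=
      Y.corr_homog (Y.corr_pow hΛ.corr m₀) (by ring) hzd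
    have hwd : Y.π (n - m₀) w = w := by
      rw [hw, map_sub, hud]
      congr 1
      exact Y.corr_homog Y.L_corr (by ring) (Y.corr_homog hΛ.corr rfl hud)
    have hwp : (Y.L ^ (m₀ + 1)) w = 0 := hΛ.prim m₀ _ hud
    have hLΛw : Y.L (Λ w) = 0 := by
      have h1 := congrArg (fun f => f (Λ ((Λ ^ m₀) z))) hLL
      simp only [Module.End.mul_apply] at h1
      rw [hw, map_sub, map_sub, h1, sub_self]
    have hAw : ∀ m, A m w = if m = m₀ then w else 0 := by
      intro m
      rw [hA]
      show ((1 - Y.L * Λ) * Y.π (n - m)) w = _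
      rw [Module.End.mul_apply]
      split_ifs with h
      · subst h
        rw [hwd, LinearMap.sub_apply, Module.End.one_apply, Module.End.mul_apply, hLΛw, sub_zero]
      · rw [Y.π_apply_ne (by omega) hwd, map_zero]
    have hMv : ∀ m, M m v = if m = m₀ then
        c • ((θ m₀ ((Z.L ^ (m₀ + 1)) a)) ⊗ₜ[F] w) else 0 := by
      intro m
      rw [hv3, map_smul, hM]
      show c • (TensorProduct.map (θ m) (A m)) _ = _
      rw [TensorProduct.map_tmul, hAw]
      split_ifs with h
      · subst h; rfl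
      · rw [tmul_zero, smul_zero]
    rw [Finset.sum_eq_single m₀]
    · rw [hMv, if_pos rfl, e3, LinearMap.sub_apply, hneg, map_smul, map_smul, hXa, hVa, hwp,
        tmul_zero, smul_zero, smul_zero, sub_zero, hv3]
      by_cases hw0 : w = 0
      · rw [hw0, tmul_zero, tmul_zero]
      · rw [hθq m₀ hm₀n ⟨w, hw0, hwd, hwp⟩ p a ?_ ha]
        obtain ⟨t, ht⟩ := hpq
        exact ⟨t - n, by push_cast at ht ⊢; omega⟩
    · intro m _ hm
      rw [hMv, if_neg hm, map_zero]
    · intro h
      exact absurd (Finset.mem_range.mpr (by omega)) h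
  refine ⟨τ.conj Θ, ?_, ?_⟩
  · have h1 : τ.conj Θ ∈ T.corr (-1) := hΘc
    rwa [show (-1 : ℤ) = -((1 : ℕ) : ℤ) by norm_num] at h1
  · intro j x hj hx
    have hTL : T.L = τ.conj (X + V) := hP.polar
    have hconj : ∀ (f : Module.End F (Z.H ⊗[F] Y.H)) t, τ.conj f (τ t) = τ (f t) := by
      intro f t
      rw [LinearEquiv.conj_apply_apply, LinearEquiv.symm_apply_apply]
    have key : T.L * τ.conj Θ * T.L * T.π j = T.L * T.π j := by
      apply ext_tensor (Z := Z) (Y := Y) (τ := τ)
      intro p q a y ha hy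
      have hay := hP.grade p q a y ha hy
      simp only [Module.End.mul_apply]
      by_cases hpq : p + q = j
      · subst hpq
        rw [hay, hTL, hconj, hconj, hconj]
        congr 1
        have := main p q a y ha hy (by rw [hP.dim] at hj; exact hj)
        simp only [Module.End.mul_apply] at this
        exact this
      · rw [T.π_apply_ne (Ne.symm hpq) hay]
        simp
    have h2 := congrArg (fun f => f x) key
    simp only [Module.End.mul_apply] at h2
    rw [hx] at h2
    rw [pow_one]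
    exact h2

end IsProd

end Pool.Agent.Helper47.PB
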