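import Pool.Agent.Helper29.CPB.Statement

/-!
# Ample divisors, cyclic covers, projective bundles and quasi-inverses

Additions to `Pool.Agent.Helper29.CPB.Statement`.
-/

namespace Pool.Agent.Helper47.PB

open Pool.Agent.Helper29.CPB

universe u v

variable {F : Type u} [Field F]

/-- The operator `A : H^j(X) → H^(j+2s)(X)` has an algebraic quasi-inverse `θ`, `A θ A = A`, on the
`H^j(X)` with `j ≡ n` modulo `2`. -/
def QuasiInverse (X : Variety.{u, v} F) (A : Module.End F X.H) (s n : ℕ) : Prop :=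
  ∃ θ, X.alg (-s) θ ∧ ∀ (j : ℤ) (x : X.H), Even (j + n) → X.π j x = x → A (θ (A x)) = A x

/-- The Lefschetz standard conjecture in degree `i`. (It is known for `i = 0` and for `i = 1`.) -/
def LefschetzIn (X : Variety.{u, v} F) (i : ℕ) : Prop :=
  i ≤ X.dim → ∃ θ, X.alg (i - X.dim) θ ∧ ∀ x, X.π i x = x → θ ((X.L ^ (X.dim - i)) x) = x

/-- A finite morphism `S → T`, `dim S = dim T - s`, to which the weak Lefschetz theorem applies, and
for which the class of `S` is `N h^s`, `h` the polarisation of `T`. For `s ≥ 1`: a smooth complete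
intersection of divisors whose classes are positive multiples of `h`; in particular a smooth ample
divisor, `h` its class. For `s = 0`: a cyclic cover of degree `N`, with smooth ample branch
divisor. -/
structure LefschetzMap (T S : Variety.{u, v} F) (s : ℕ) where
  dim : S.dim + s = T.dim
  /-- pull-back -/
  up : T.H →ₗ[F] S.H
  /-- push-forward -/
  dn : S.H →ₗ[F] T.H
  N : ℕ
  pos : 0 < N
  up_deg : ∀ i x, up (T.π i x) = S.π i (up x)
  dn_deg : ∀ i y, dn (S.π i y) = T.π (i + 2 * s) (dn y)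
  dn_up : ∀ x, dn (up x) = (N : F) • (T.L ^ s) x
  onto : ∀ i : ℤ, i < S.dim → ∀ y, S.π i y = y → ∃ x, up x = y
  mono : ∀ i : ℤ, S.dim < i → ∀ y, S.π i y = y → dn y = 0 → y = 0
  /-- pull-back of cycles along `S × S → T × T` -/
  restrict : ∀ γ, T.alg (-s) γ → ∃ f, S.alg 0 f ∧ ∀ y, f y = up (γ (dn y))

/-- `T` is a projective bundle over `Z` with fibres `P^(c-1)`, `c ≥ 1`, and `h` is its polarisation.
As `h` is ample on the fibres, the cohomology of `T` is `H(Z)[h] / (h^c + c_1 h^(c-1) + … + c_c)`,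
where `c_k` is an algebraic class of codimension `k` on `Z` (the Chern class `c_k(E)`, if `T = P(E)`
and `h` is the class of `O(1)`). -/
structure ProjBundle (Z T : Variety.{u, v} F) (c : ℕ) where
  pos : 1 ≤ c
  dim : T.dim + 1 = Z.dim + c
  /-- `a ↦ h^i a` -/
  inc : ℕ → (Z.H →ₗ[F] T.H)
  /-- the coefficient of `h^i` -/
  coef : ℕ → (T.H →ₗ[F] Z.H)
  coef_inc : ∀ i < c, ∀ j < c, ∀ a, coef i (inc j a) = if i = j then a else 0
  sum_inc : ∀ b, ∑ i ∈ Finset.range c, inc i (coef i b) = b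
  deg : ∀ (i : ℕ) (j : ℤ) (a : Z.H), i < c → Z.π j a = a → T.π (j + 2 * i) (inc i a) = inc i a
  /-- multiplication by `c_k` -/
  chern : ℕ → Module.End F Z.H
  chern_zero : chern 0 = 1
  chern_alg : ∀ k : ℕ, Z.alg k (chern k)
  chern_L : ∀ k a, chern k (Z.L a) = Z.L (chern k a)
  mul : ∀ i a, i + 1 < c → T.L (inc i a) = inc (i + 1) a
  mul_last : ∀ a, T.L (inc (c - 1) a) = - ∑ j ∈ Finset.range c, inc j (chern (c - j) a)
  /-- pull-backs, push-forwards and cup products with `h` are algebraic -/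
  alg : ∀ (i j : ℕ) (r : ℤ) (f : Module.End F Z.H), i < c → j < c → Z.alg r f →
    T.alg (r + i - j) (inc i ∘ₗ f ∘ₗ coef j)
  alg' : ∀ (i j : ℕ) (r : ℤ) (f : Module.End F T.H), i < c → j < c → T.alg r f →
    Z.alg (r + j - i) (coef i ∘ₗ f ∘ₗ inc j)

/-- The operators `c_c L^(d-c-i) : H^i(Z) → H^(2d-i)(Z)`, `d = dim Z`, are injective. (Known:
Bloch and Gieseker 1971, as `h` is ample.) -/
def ProjBundle.BlochGieseker {Z T : Variety.{u, v} F} {c : ℕ} (B : ProjBundle Z T c) : Prop :=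
  ∀ i : ℕ, i + c ≤ Z.dim → ∀ x, Z.π i x = x → B.chern c ((Z.L ^ (Z.dim - i - c)) x) = 0 → x = 0

/-- `T = Z × Y`, with the polarisation `L ⊗ 1 + 1 ⊗ L`: the exterior product `μ x y = x × y` makes
`H(T)` the tensor product of `H(Z)` and `H(Y)`; exterior products of algebraic correspondences are
algebraic; the contraction `θ` of an algebraic self-correspondence `γ` of `T` along the diagonal of
`Y`, which is the partial supertrace, is algebraic (`ε` is the parity operator). -/
structure Product (Z Y T : Variety.{u, v} F) (μ : Z.H → Y.H → T.H) : Prop where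
  dim : T.dim = Z.dim + Y.dim
  tensor : ∃ B : Z.H →ₗ[F] Y.H →ₗ[F] T.H, IsTensorProduct B ∧ ∀ x y, B x y = μ x y
  grade : ∀ (i j : ℤ) (x : Z.H) (y : Y.H), Z.π i x = x → Y.π j y = y → T.π (i + j) (μ x y) = μ x y
  polar : ∀ x y, T.L (μ x y) = μ (Z.L x) y + μ x (Y.L y)
  prod : ∀ r s f g, Z.alg r f → Y.alg s g → ∃ h, T.alg (r + s) h ∧ ∀ x y, h (μ x y) = μ (f x) (g y)
  contr : ∀ r γ, T.alg r γ → ∃ θ, Z.alg r θ ∧ ∀ v h,
    (∀ x y, h (μ x y) = μ (v x) (parity Y.dim Y.π y)) → tr (θ * v) = tr (γ * h)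

/-- There are primitive classes `y ≠ 0` in degree `dim Y - m`. -/
def HasPrimitive (Y : Variety.{u, v} F) (m : ℕ) : Prop :=
  ∃ y, y ≠ 0 ∧ Y.π (Y.dim - m) y = y ∧ (Y.L ^ (m + 1)) y = 0

end Pool.Agent.Helper47.PB
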